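import Pool.Agent.Helper27.LCY.Abs

/-!
Top level definitions and statements for MP_f7e214_ag (abstract layer): admissible pairs,
families, and the statements of the blocks.
-/

open Polynomial

namespace LCY

noncomputable section

/-- The rational function `r` over the field `K` is regular at the irreducible polynomial `P`
(its denominator can be chosen prime to `P`). -/
def RegAtT {K : Type} [Field K] (P : K[X]) (r : RatFunc K) : Prop :=
  ∃ a b : K[X], ¬ P ∣ b ∧ r = algebraMap K[X] (RatFunc K) a / algebraMap K[X] (RatFunc K) b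

variable {L : Type} [Field L] [Algebra ℂ L]

/-- The conclusion: a non-constant point of the surface with values in the rational functions
over a field `K`, all of whose places away from zero and infinity are trivial or places of
curves that are not contracted and along which the 2-form has no zero and no pole. -/
def Fam {N : ℕ} (ω : Bracket L) (x : Fin (N + 1) → L) : Prop :=
  ∃ (K : Type) (_ : Field K) (_ : Algebra ℂ K) (i : L →ₐ[ℂ] RatFunc K),
    (∃ z, ∀ c : K, i z ≠ RatFunc.C c) ∧
    ∀ P : K[X], Irreducible P → ¬ P ∣ Polynomial.X →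
      (∀ z, RegAtT P (i z)) ∨
      ∃ v : DVal L, ¬ Contracted x v ∧ ω.Wt v 0 ∧ ∀ z, v.Int z ↔ RegAtT P (i z)

/-- Admissible pairs: a finitely generated field of transcendence degree two, a 2-form and a
generically finite linear system, such that the 2-form has value at least `-1` everywhere and at
most `0` at the places that are not contracted. -/
structure Adm {N : ℕ} (ω : Bracket L) (x : Fin (N + 1) → L) : Prop where
  fg : ∃ s : Finset L, IntermediateField.adjoin ℂ (s : Set L) = ⊤
  trdeg : Algebra.trdeg ℂ L = 2
  nz : ∃ i, x i ≠ 0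
  alg : ∀ i, x i ≠ 0 →
    Algebra.IsAlgebraic (IntermediateField.adjoin ℂ (Set.range fun j => x j / x i)) L
  h1 : ∀ (v : DVal L) (k : ℤ), ω.Wt v k → -1 ≤ k
  h2 : ∀ (v : DVal L) (k : ℤ), ω.Wt v k → ¬ Contracted x v → k ≤ 0

/-- The place `v` is trivial on the subfield `E` (horizontal for the ruling with base `E`). -/
def Horiz (E : IntermediateField ℂ L) (v : DVal L) : Prop := ∀ z ∈ E, z ≠ 0 → v.v z = 0

/-- The ruling of `L` with base field `E` and fibre coordinate `t`. -/
def IsRuling (E : IntermediateField ℂ L) (t : L) : Prop :=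
  Algebra.trdeg ℂ E = 1 ∧ IntermediateField.adjoin E {t} = ⊤

/-- A valuation of a field over the complex numbers with integer values, trivial on the complex
numbers (it may be trivial and need not be normalised). -/
structure CVal (E : Type) [Field E] [Algebra ℂ E] where
  /-- the value of a nonzero element -/
  w : E → ℤ
  map_mul : ∀ a b, a ≠ 0 → b ≠ 0 → w (a * b) = w a + w b
  map_add : ∀ a b, a ≠ 0 → b ≠ 0 → a + b ≠ 0 → min (w a) (w b) ≤ w (a + b)
  map_const : ∀ c : ℂ, c ≠ 0 → w (algebraMap ℂ E c) = 0

/-- The differential `φ ds` of the field `E` is not zero and regular at all places. -/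
def RegDiff (E : Type) [Field E] [Algebra ℂ E] (φ s : E) : Prop :=
  φ ≠ 0 ∧ Transcendental ℂ s ∧ ∀ w : CVal E,
    (∀ c : ℂ, 0 < w.w (s - algebraMap ℂ E c) → 1 ≤ w.w φ + w.w (s - algebraMap ℂ E c)) ∧
    (w.w s < 0 → 1 ≤ w.w φ + w.w s)

/-- GENUS0. A finitely generated field of transcendence degree one over the complex numbers is
rational or has a nonzero everywhere regular differential. -/
def ST_GENUS0 : Prop := ∀ (E : Type) [Field E] [Algebra ℂ E],
  (∃ s : Finset E, IntermediateField.adjoin ℂ (s : Set E) = ⊤) → Algebra.trdeg ℂ E = 1 →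
  (∃ s : E, IntermediateField.adjoin ℂ {s} = ⊤) ∨ ∃ φ s : E, RegDiff E φ s

/-- NR. The normal ring of the affine chart where `x i` is not zero: a function that is integral
at all places which are not contracted and have their centre on this chart is integral at all
places with centre on this chart, with constant residue at the contracted ones; and `L` is the
field of fractions of these functions. -/
def ST_NR : Prop := ∀ (L : Type) [Field L] [Algebra ℂ L] (N : ℕ) (x : Fin (N + 1) → L),
  (∃ s : Finset L, IntermediateField.adjoin ℂ (s : Set L) = ⊤) → Algebra.trdeg ℂ L = 2 →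
  ∀ i, x i ≠ 0 →
  Algebra.IsAlgebraic (IntermediateField.adjoin ℂ (Set.range fun j => x j / x i)) L →
  (∀ h : L, (∀ v : DVal L, ¬ Contracted x v → (∀ j, v.Int (x j / x i)) → v.Int h) →
    ∀ v : DVal L, (∀ j, v.Int (x j / x i)) → v.Int h ∧
      (Contracted x v → ∃ c : ℂ, v.Pos (h - algebraMap ℂ L c))) ∧
  (∀ z : L, ∃ a b : L, b ≠ 0 ∧ z = a / b ∧
    (∀ v : DVal L, (∀ j, v.Int (x j / x i)) → v.Int a) ∧
    (∀ v : DVal L, (∀ j, v.Int (x j / x i)) → v.Int b))

/-- CB. Conic bundles: if all horizontal places are simple poles of the 2-form or places that are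
not contracted and where the 2-form has value zero, there is a family. -/
def ST_CB : Prop := ∀ (L : Type) [Field L] [Algebra ℂ L] (N : ℕ) (ω : Bracket L)
  (x : Fin (N + 1) → L), Adm ω x → ∀ (E : IntermediateField ℂ L) (t : L), IsRuling E t →
  (∀ (v : DVal L) (k : ℤ), Horiz E v → ω.Wt v k → k = -1 ∨ (k = 0 ∧ ¬ Contracted x v)) →
  Fam ω x

/-- DELTA. A contracted horizontal place at which the 2-form is regular does not exist if the
base has a nonzero regular differential. -/
def ST_DELTA : Prop := ∀ (L : Type) [Field L] [Algebra ℂ L] (N : ℕ) (ω : Bracket L)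
  (x : Fin (N + 1) → L), Adm ω x → ∀ (E : IntermediateField ℂ L), Algebra.trdeg ℂ E = 1 →
  ∀ φ s : E, RegDiff E φ s → ∀ (v : DVal L) (k : ℤ), Horiz E v → ω.Wt v k → 0 ≤ k →
  ¬ Contracted x v

/-- The main theorem of the abstract layer. -/
def ST_MAIN : Prop := ∀ (L : Type) [Field L] [Algebra ℂ L] (N : ℕ) (ω : Bracket L)
  (x : Fin (N + 1) → L), Adm ω x → (∃ (E : IntermediateField ℂ L) (t : L), IsRuling E t) →
  Fam ω x

/-- The rational case of the main theorem. -/
def ST_RAT : Prop := ∀ (L : Type) [Field L] [Algebra ℂ L] (N : ℕ) (ω : Bracket L)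
  (x : Fin (N + 1) → L), Adm ω x → (∃ a b : L, IntermediateField.adjoin ℂ {a, b} = ⊤) →
  Fam ω x

end

end LCY
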