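import Pool.Agent.Helper48.LCY.Main
import Pool.Agent.Helper11.LCY.State
import Pool.Agent.Helper26.LC.FamStmts2

/-!
Assembly of the main theorem of the abstract layer for MP_f7e214_ag from the blocks: step 1,
step 3, trivial torsion, covers, irrational base.
-/

open Polynomial Pool.Agent.Helper82.LCY

namespace LCY

noncomputable section

variable {L : Type} [Field L] [Algebra ℂ L]

/-- First outcome: a conic bundle all of whose horizontal places are poles of the 2-form or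
places of curves outside the boundary that are not contracted. -/
def CBOut {N : ℕ} (ω : Bracket L) (x : Fin (N + 1) → L) : Prop :=
  ∃ (E : IntermediateField ℂ L) (t : L), IsRuling E t ∧
    ∀ (v : DVal L) (k : ℤ), Horiz E v → ω.Wt v k → k = -1 ∨ (k = 0 ∧ ¬ Contracted x v)

/-- Second outcome: the quadric cone, in the coordinates `Q` with boundary `y ^ 2 = h(x)`, and
in the coordinates `Q' = (1 / x, y / x ^ 2)` at the line `x = ∞`. -/
def ConeOut {N : ℕ} (ω : Bracket L) (x : Fin (N + 1) → L) : Prop :=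
  ∃ (Q Q' : Coord L) (h : ℂ[X]), Q'.x = Q.x⁻¹ ∧ Q'.y = Q.y / Q.x ^ 2 ∧ h.natDegree ≤ 4 ∧ h ≠ 0 ∧
    (∀ a : ℂ, h ≠ C (h.coeff 4) * (X - C a) ^ 4) ∧ (∀ a : ℂ, h ≠ C a) ∧
    (∀ (g : ℂ[X][X]) (v : DVal L), Irreducible g → ¬ g ∣ (X ^ 2 - C h) → IsPlaceOf Q g v →
      CYp ω x v) ∧
    ∀ v : DVal L, IsPlaceOf Q' (C X) v → CYp ω x v

/-- The contracted curves outside the boundary. -/
def CSet {N : ℕ} (ω : Bracket L) (x : Fin (N + 1) → L) {k : ℕ} (T : PStr L k) : Set (DVal L) :=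
  {v | T.Cur v ∧ ω.Wt v 0 ∧ Contracted x v}

/-- The classes of the contracted curves outside the boundary span `K ^ ⊥` over the rational
numbers. -/
def Full {N : ℕ} (ω : Bracket L) (x : Fin (N + 1) → L) {k : ℕ} (T : PStr L k) : Prop :=
  SpansPerp (T.cl '' CSet ω x T)

/-- The classes of the contracted curves outside the boundary span `K ^ ⊥` over the integers
(trivial torsion). -/
def ZSpan {N : ℕ} (ω : Bracket L) (x : Fin (N + 1) → L) {k : ℕ} (T : PStr L k) : Prop :=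
  ∀ b : Cl ℤ (Fin k), ip KK b = 0 → b ∈ Submodule.span ℤ (T.cl '' CSet ω x T)

/-- STEP 1 of the rational case. -/
def ST_STEP1 : Prop := ∀ (L : Type) [Field L] [Algebra ℂ L] (N : ℕ) (ω : Bracket L)
  (x : Fin (N + 1) → L), Adm ω x → (∃ a b : L, IntermediateField.adjoin ℂ {a, b} = ⊤) →
  CBOut ω x ∨ ConeOut ω x ∨ ∃ (k : ℕ) (T : PStr L k), State ω x T

/-- STEP 3: reduction to full rank. -/
def ST_STEP3 : Prop := ∀ (L : Type) [Field L] [Algebra ℂ L] (N : ℕ) (ω : Bracket L)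
  (x : Fin (N + 1) → L), Adm ω x → ∀ (k : ℕ) (T : PStr L k), State ω x T →
  CBOut ω x ∨ ConeOut ω x ∨
    ∃ (j : ℕ) (T' : PStr L j), (j = 0 ∨ 3 ≤ j) ∧ State ω x T' ∧ Full ω x T'

/-- T = 0: the families in the case of trivial torsion. -/
def ST_T0 : Prop := ∀ (L : Type) [Field L] [Algebra ℂ L] (N : ℕ) (ω : Bracket L)
  (x : Fin (N + 1) → L), Adm ω x → ∀ (k : ℕ) (T : PStr L k), (k = 0 ∨ 3 ≤ k) → State ω x T →
  ZSpan ω x T → Fam ω x

/-- COVERS: the induction over cyclic covers. -/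
def ST_COV : Prop := (∀ (L : Type) [Field L] [Algebra ℂ L] (N : ℕ) (ω : Bracket L)
    (x : Fin (N + 1) → L), Adm ω x →
    (∃ (E : IntermediateField ℂ L) (t : L), IsRuling E t) →
    Fam ω x ∨ ∃ (k : ℕ) (T : PStr L k), 3 ≤ k ∧ State ω x T ∧ Full ω x T ∧ ¬ ZSpan ω x T) →
  ST_MAIN

namespace H48

theorem zspan_zero {N : ℕ} (ω : Bracket L) (x : Fin (N + 1) → L) (T : PStr L 0) :
    ZSpan ω x T := by
  intro b hb
  have h1 : b = 0 := by
    have h2 : b.1 = 0 := by
      simp only [ip, KK, Finset.univ_eq_empty, Finset.sum_empty] at hb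
      omega
    refine Prod.ext h2 (funext fun i => i.elim0)
  rw [h1]
  exact Submodule.zero_mem _

/-- The main theorem of the abstract layer from the blocks. -/
theorem all (hRU : ST_RULES) (hNR : ST_NR) (hG : ST_GENUS0) (hCB : ST_CB) (hCO : ST_CONE)
    (h1 : ST_STEP1) (h3 : ST_STEP3) (hT : ST_T0) (hC : ST_COV) : ST_MAIN := by
  apply hC
  intro L _ _ N ω x hA hru
  rcases irr hRU hNR hG hCB L N ω x hA hru with hr | hf
  swap
  · exact Or.inl hf
  have hcb : CBOut ω x → Fam ω x := by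
    rintro ⟨E, t, h4, h5⟩
    exact hCB L N ω x hA E t h4 h5
  have hco : ConeOut ω x → Fam ω x := by
    rintro ⟨Q, Q', h, a1, a2, a3, a4, a5, a6, a7, a8⟩
    exact hCO L N ω x Q Q' h a1 a2 a3 a4 a5 a6 a7 a8
  rcases h1 L N ω x hA hr with h | h | ⟨k, T, hS⟩
  · exact Or.inl (hcb h)
  · exact Or.inl (hco h)
  rcases h3 L N ω x hA k T hS with h | h | ⟨j, T', hj, hS', hF⟩
  · exact Or.inl (hcb h)
  · exact Or.inl (hco h)
  by_cases hz : ZSpan ω x T'
  · exact Or.inl (hT L N ω x hA j T' hj hS' hz)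
  · refine Or.inr ⟨j, T', ?_, hS', hF, hz⟩
    rcases hj with h0 | h0
    · subst h0
      exact absurd (zspan_zero ω x T') hz
    · exact h0

end H48

end

end LCY
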