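import Pool.Agent.Helper48.LCY.Asm
import Pool.Agent.Helper11.LCY.Stmts

/-!
The divisor of poles: orthogonality to the contracted curves; it is irreducible in the case of
full rank (row RED for MP_f7e214_ag).
-/

open Polynomial Pool.Agent.Helper82.LCY

namespace LCY

noncomputable section

variable {L : Type} [Field L] [Algebra ℂ L]

namespace H48

theorem resTr_same {v w : DVal L} (h : v.Same w) {t : L} (ht : ResTr v.v t) : ResTr w.v t :=
  fun P hP => ⟨(ht P hP).1, by rw [← h _ (ht P hP).1]; exact (ht P hP).2⟩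

theorem wt_same {ω : Bracket L} {v w : DVal L} (h : v.Same w) {k : ℤ} (hk : ω.Wt v k) :
    ω.Wt w k := by
  obtain ⟨t, π, h1, h2, h3, h4, h5⟩ := hk
  exact ⟨t, π, resTr_same h h1, h2, by rw [← h π h2]; exact h3, h4, by rw [← h _ h4]; exact h5⟩

open Classical in
/-- Normalisation of a place: value zero at zero. -/
def nrm (v : DVal L) : DVal L where
  v a := if a = 0 then 0 else v.v a
  map_mul a b ha hb := by
    simp only [if_neg ha, if_neg hb, if_neg (mul_ne_zero ha hb)]
    exact v.map_mul a b ha hb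
  map_add a b ha hb hab := by
    simp only [if_neg ha, if_neg hb, if_neg hab]
    exact v.map_add a b ha hb hab
  map_const c hc := by
    simp only [if_neg (by simpa using hc : algebraMap ℂ L c ≠ 0)]
    exact v.map_const c hc
  exists_unif := by
    obtain ⟨π, h1, h2⟩ := v.exists_unif
    exact ⟨π, h1, by simp only [if_neg h1]; exact h2⟩
  exists_res := by
    obtain ⟨t, ht⟩ := v.exists_res
    exact ⟨t, fun P hP => ⟨(ht P hP).1, by
      simp only [if_neg (ht P hP).1]; exact (ht P hP).2⟩⟩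

theorem nrm_zero (v : DVal L) : (nrm v).v 0 = 0 := by simp [nrm]

theorem nrm_same (v : DVal L) : v.Same (nrm v) := fun a ha => by
  simp only [nrm, if_neg ha]

theorem through_same {R : Subalgebra ℂ L} {v w : DVal L} (h : v.Same w) (ht : Through R v) :
    Through R w := by
  obtain ⟨h1, z, h2, h3, h4, h5⟩ := ht
  refine ⟨fun y hy => ?_, z, h2, h3, h4, by rw [← h z h4]; exact h5⟩
  rcases h1 y hy with h6 | h6
  · exact Or.inl h6
  · by_cases hy0 : y = 0
    · exact Or.inl hy0
    · exact Or.inr (by rw [← h y hy0]; exact h6)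

theorem cur_same {k : ℕ} {T : PStr L k} {v w : DVal L} (h : v.Same w) (hv : T.Cur v) :
    T.Cur w := by
  obtain ⟨R, hR, h1⟩ := hv
  exact ⟨R, hR, through_same h h1⟩

theorem isOrd_same {R : Subalgebra ℂ L} {v w : DVal L} (h : v.Same w) (hv : IsOrd R v) :
    IsOrd R w := by
  obtain ⟨P, h8, h9⟩ := hv
  exact ⟨P, h8, fun f hf => by rw [← h _ (P.ne hf)]; exact h9 f hf⟩

theorem isInf_same {S : Coord L} {v w : DVal L} (h : v.Same w) (hv : IsInf S v) :
    IsInf S w := fun f hf => by rw [← h _ (S.ne hf)]; exact hv f hf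

theorem isAdic_same {P : Coord L} {g : ℂ[X][X]} {v w : DVal L} (h : v.Same w)
    (hv : IsAdic P g v) : IsAdic P g w := by
  obtain ⟨h8, h9⟩ := hv
  refine ⟨h8, fun n f hf => ?_⟩
  rw [← h _ (P.ne (mul_ne_zero (pow_ne_zero _ h8.ne_zero) ?_))]
  · exact h9 n f hf
  · rintro rfl
    exact hf (dvd_zero g)

theorem same_symm {v w : DVal L} (h : v.Same w) : w.Same v := fun a ha => (h a ha).symm

open Classical in
/-- The class depends only on the values at nonzero elements. -/
theorem cl_same {k : ℕ} (T : PStr L k) {v w : DVal L} (h : v.Same w) : T.cl v = T.cl w := by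
  have h' := same_symm h
  have eO : ∀ R, IsOrd R v ↔ IsOrd R w := fun R => ⟨isOrd_same h, isOrd_same h'⟩
  have eT : ∀ R, Through R v ↔ Through R w := fun R => ⟨through_same h, through_same h'⟩
  have eA : ∀ (P : Coord L) g, IsAdic P g v ↔ IsAdic P g w := fun P g =>
    ⟨isAdic_same h, isAdic_same h'⟩
  have eI : IsInf T.S v ↔ IsInf T.S w := ⟨isInf_same h, isInf_same h'⟩
  have e1 : deg T.S v = deg T.S w := by
    unfold deg
    simp only [eA]
    by_cases hi : IsInf T.S v
    · rw [if_pos hi, if_pos (eI.1 hi)]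
    · rw [if_neg hi, if_neg (fun h => hi (eI.2 h))]
  have e2 : ∀ R, mul R v = mul R w := by
    intro R
    unfold mul
    simp only [eA]
    by_cases h1 : IsOrd R v
    · rw [if_pos h1, if_pos ((eO R).1 h1)]
    · rw [if_neg h1, if_neg (fun h => h1 ((eO R).2 h))]
      by_cases h2 : Through R v
      · rw [if_pos h2, if_pos ((eT R).1 h2)]
      · rw [if_neg h2, if_neg (fun h => h2 ((eT R).2 h))]
  exact Prod.ext e1 (funext fun i => e2 _)

variable {N : ℕ} {ω : Bracket L} {x : Fin (N + 1) → L} {k : ℕ} {T : PStr L k} {w : DVal L → ℤ}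

/-- The finite set of the curves where the divisor `w` is not zero. -/
def poles (hD : T.IsDiv w) : Finset (DVal L) :=
  Set.Finite.toFinset (s := {v | v ∈ T.C ∧ w v ≠ 0}) hD

theorem mem_poles {hD : T.IsDiv w} {v : DVal L} : v ∈ poles hD ↔ v ∈ T.C ∧ w v ≠ 0 :=
  Set.Finite.mem_toFinset (s := {v | v ∈ T.C ∧ w v ≠ 0}) hD

theorem coe_poles {hD : T.IsDiv w} : (poles hD : Set (DVal L)) = {v | v ∈ T.C ∧ w v ≠ 0} :=
  Set.Finite.coe_toFinset (s := {v | v ∈ T.C ∧ w v ≠ 0}) hD

theorem finsum_poles (hS : State ω x T) (hw : ∀ v, ω.Wt v (w v)) (hD : T.IsDiv w)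
    (hK : T.clD w = KK) : ∑ v ∈ poles hD, T.cl v = -KK := by
  have h1 : T.clD w = ∑ v ∈ poles hD, w v • T.cl v := by
    unfold PStr.clD
    rw [finsum_mem_eq_sum_of_inter_support_eq]
    rw [coe_poles]
    ext v
    simp only [Set.mem_inter_iff, Function.mem_support, Set.mem_setOf_eq]
    constructor
    · rintro ⟨h2, h3⟩
      refine ⟨⟨h2, fun h4 => h3 (by rw [h4, zero_smul])⟩, h3⟩
    · rintro ⟨⟨h2, _⟩, h3⟩
      exact ⟨h2, h3⟩
  have h2 : ∀ v ∈ poles hD, w v • T.cl v = - T.cl v := by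
    intro v hv
    rw [mem_poles] at hv
    have h3 : w v = -1 := (hS.wt v hv.1.2 (w v) (hw v)).resolve_left hv.2
    rw [h3, neg_smul, one_smul]
  rw [Finset.sum_congr rfl h2, Finset.sum_neg_distrib, hK] at h1
  rw [h1, neg_neg]

/-- The curves of poles do not meet the contracted curves outside the divisor of poles. -/
theorem pole_perp (hC3 : ST_C3) (hS : State ω x T) (hw : ∀ v, ω.Wt v (w v))
    (hu : ∀ v k, ω.Wt v k → k = w v) (hD : T.IsDiv w) (hK : T.clD w = KK) {D E : DVal L}
    (hDC : T.Cur D) (hD1 : ω.Wt D (-1)) (hE : T.Cur E) (hE0 : ω.Wt E 0)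
    (hEK : ip KK (T.cl E) = 0) : ip (T.cl D) (T.cl E) = 0 := by
  have hsame : ∀ v : DVal L, ω.Wt v (-1) → ¬ v.Same E := by
    intro v hv h
    have h1 := hu E _ (wt_same h hv)
    have h2 := hu E _ hE0
    omega
  have h1 := finsum_poles hS hw hD hK
  have h2 : ∑ v ∈ poles hD, ip (T.cl v) (T.cl E) = 0 := by
    rw [← ip_sum_left, h1]
    have : ip (-KK) (T.cl E) = - ip KK (T.cl E) := by
      simp only [ip, Prod.fst_neg, Prod.snd_neg, Pi.neg_apply, neg_mul, Finset.sum_neg_distrib]
      ring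
    rw [this, hEK, neg_zero]
  have h3 : ∀ v ∈ poles hD, 0 ≤ ip (T.cl v) (T.cl E) := by
    intro v hv
    rw [mem_poles] at hv
    have h4 : w v = -1 := (hS.wt v hv.1.2 (w v) (hw v)).resolve_left hv.2
    exact hC3 L k T v E hv.1.2 hE (hsame v (h4 ▸ hw v))
  have h4 := (Finset.sum_eq_zero_iff_of_nonneg h3).1 h2
  have h5 : nrm D ∈ poles hD := by
    rw [mem_poles]
    refine ⟨⟨nrm_zero D, cur_same (nrm_same D) hDC⟩, ?_⟩
    have := hu _ _ (wt_same (nrm_same D) hD1)
    omega
  have h6 := h4 _ h5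
  have h7 : T.cl D = T.cl (nrm D) := cl_same T (nrm_same D)
  rw [h7]
  exact h6

/-- RED. In the case of full rank there is exactly one curve of poles, and its class is `-K`. -/
theorem red (hC3 : ST_C3) (hTY : ST_TY) (hS : State ω x T) (hF : Full ω x T) (hk : 1 ≤ k)
    (hw : ∀ v, ω.Wt v (w v)) (hu : ∀ v k, ω.Wt v k → k = w v) (hD : T.IsDiv w)
    (hK : T.clD w = KK) : ∃ D ∈ T.C, ω.Wt D (-1) ∧ T.cl D = -KK ∧
      ∀ D', T.Cur D' → ω.Wt D' (-1) → D'.Same D := by
  have hk8 : Fintype.card (Fin k) ≤ 8 := by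
    rw [Fintype.card_fin]
    exact hS.le
  have hKK := KK_sq_pos (R := ℤ) hk8
  let i0 : Fin k := ⟨0, hk⟩
  have hcl : ∀ D, T.Cur D → ω.Wt D (-1) → ∃ q : ℤ, 1 ≤ q ∧ T.cl D = q • (-KK) := by
    intro D hDC hD1
    have hperp : ∀ y : Cl ℤ (Fin k), ip KK y = 0 → ip (T.cl D) y = 0 := by
      intro y hy
      obtain ⟨n, hn, hy2⟩ := hF y hy
      have h1 : ∀ z ∈ Submodule.span ℤ (T.cl '' CSet ω x T), ip (T.cl D) z = 0 := by
        intro z hz
        induction hz using Submodule.span_induction with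
        | mem z h =>
          obtain ⟨E, hE, rfl⟩ := h
          exact pole_perp hC3 hS hw hu hD hK hDC hD1 hE.1 hE.2.1 (hS.con E hE.1 hE.2.1 hE.2.2)
        | zero => rw [show (0 : Cl ℤ (Fin k)) = (0 : ℤ) • (KK : Cl ℤ (Fin k)) by rw [zero_smul], ip_smul_right, zero_mul]
        | add a b _ _ ha hb => rw [ip_add_right, ha, hb, add_zero]
        | smul a b _ hb => rw [ip_smul_right, hb, mul_zero]
      have h2 := h1 _ hy2
      rw [ip_smul_right] at h2
      exact (mul_eq_zero.1 h2).resolve_left hn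
    set c := T.cl D with hc
    set y : Cl ℤ (Fin k) := (ip (KK : Cl ℤ (Fin k)) KK) • c + (- ip KK c) • KK with hy
    have h1 : ip KK y = 0 := by
      rw [hy, ip_add_right, ip_smul_right, ip_smul_right]
      ring
    have h2 : ip y y = 0 := by
      have h3 : ip y y = (ip (KK : Cl ℤ (Fin k)) KK) * ip c y + (- ip KK c) * ip KK y := by
        conv_lhs => rw [hy, ip_add_left, ip_smul_left, ip_smul_left]
      rw [h3, h1, hperp y h1, mul_zero, mul_zero, add_zero]
    have h3 : y = 0 := eq_zero_of_perp hk8 h1 h2.ge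
    have h4 : (ip (KK : Cl ℤ (Fin k)) KK) * c.1 = -3 * ip KK c := by
      have := congrArg Prod.fst h3
      rw [hy] at this
      simp only [Prod.fst_add, Prod.smul_fst, smul_eq_mul, Prod.fst_zero] at this
      have e1 : (KK : Cl ℤ (Fin k)).1 = -3 := rfl
      rw [e1] at this
      linarith
    have h5 : ∀ i, (ip (KK : Cl ℤ (Fin k)) KK) * c.2 i = - ip KK c := by
      intro i
      have := congrFun (congrArg Prod.snd h3) i
      rw [hy] at this
      simp only [Prod.snd_add, Prod.smul_snd, Pi.add_apply, Pi.smul_apply, smul_eq_mul,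
        Prod.snd_zero, Pi.zero_apply] at this
      have e1 : (KK : Cl ℤ (Fin k)).2 i = -1 := rfl
      rw [e1] at this
      linarith
    have h6 : c.1 = 3 * c.2 i0 := by
      apply mul_left_cancel₀ hKK.ne'
      linear_combination h4 - 3 * h5 i0
    have h7 : ∀ i, c.2 i = c.2 i0 := by
      intro i
      apply mul_left_cancel₀ hKK.ne'
      rw [h5 i, h5 i0]
    refine ⟨c.2 i0, ?_, ?_⟩
    · rcases hTY L k T D hDC with h8 | ⟨h8, p, _, h9, _⟩
      · have h9 : 1 ≤ c.1 := h8.1
        omega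
      · have h10 : c.1 = 0 := h8
        have h11 : c.2 p = -1 := h9
        rw [h7 p] at h11
        omega
    · refine Prod.ext ?_ (funext fun i => ?_)
      · show c.1 = c.2 i0 * (- (-3))
        rw [h6]
        ring
      · show c.2 i = c.2 i0 * (- (-1))
        rw [h7 i]
        ring
  have hsum := finsum_poles hS hw hD hK
  have hmem : ∀ v ∈ poles hD, T.Cur v ∧ ω.Wt v (-1) := by
    intro v hv
    rw [mem_poles] at hv
    have h4 : w v = -1 := (hS.wt v hv.1.2 (w v) (hw v)).resolve_left hv.2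
    exact ⟨hv.1.2, h4 ▸ hw v⟩
  have hq : ∀ v ∈ poles hD, 1 ≤ (T.cl v).2 i0 := by
    intro v hv
    obtain ⟨q, h1, h2⟩ := hcl v (hmem v hv).1 (hmem v hv).2
    rw [h2]
    show 1 ≤ q * (- (-1))
    omega
  have hone : ∑ v ∈ poles hD, (T.cl v).2 i0 = 1 := by
    have h1 := congrFun (congrArg Prod.snd hsum) i0
    rw [Prod.snd_sum, Finset.sum_apply] at h1
    rw [h1]
    rfl
  have hcard : (poles hD).card = 1 := by
    have h1 : ((poles hD).card : ℤ) ≤ 1 := by
      have := Finset.card_nsmul_le_sum (poles hD) (fun v => (T.cl v).2 i0) 1 hq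
      rw [hone] at this
      simpa using this
    have h2 : (poles hD).card ≠ 0 := by
      intro h3
      rw [Finset.card_eq_zero] at h3
      rw [h3, Finset.sum_empty] at hone
      exact zero_ne_one hone
    omega
  obtain ⟨D, hD0⟩ := Finset.card_eq_one.1 hcard
  have hDm : D ∈ poles hD := by rw [hD0]; exact Finset.mem_singleton_self D
  have hDm' := hDm
  rw [mem_poles] at hDm'
  refine ⟨D, hDm'.1, (hmem D hDm).2, ?_, ?_⟩
  · rw [hD0, Finset.sum_singleton] at hsum
    exact hsum
  · intro D' h1 h2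
    have h3 : nrm D' ∈ poles hD := by
      rw [mem_poles]
      refine ⟨⟨nrm_zero D', cur_same (nrm_same D') h1⟩, ?_⟩
      have := hu _ _ (wt_same (nrm_same D') h2)
      omega
    rw [hD0, Finset.mem_singleton] at h3
    rw [← h3]
    exact nrm_same D'

end H48

end

end LCY
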