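import Pool.Agent.Helper48.LCY.TFd
import Pool.Agent.Helper48.KM.Stmts
import Pool.Agent.Helper26.LC.FamStmts
import Pool.Agent.Helper26.LC.FamStmts3

/-!
Row T0FAM for MP_f7e214_ag: families in the case of trivial torsion, from the surfaces
`y ^ 2 = x ^ 3 + A x z ^ 4 + B z ^ 6 + z ^ e`.
-/

open Polynomial

namespace LCY

noncomputable section

namespace H48

section Wts

variable {L : Type} [Field L] [Algebra ℂ L] {ω : Bracket L} {S : Coord L} {c A B : ℂ}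

/-- The rules of the weight `m` at the place `v`. -/
structure WR (ω : Bracket L) (v : DVal L) (m : ℤ) : Prop where
  b0 : ∀ a b, v.Int a → v.Int b → ω.br a b = 0 ∨ - m ≤ v.v (ω.br a b)
  b9 : ∀ a b, a ≠ 0 → b ≠ 0 → ω.br a b ≠ 0 → v.v a + v.v b - 1 - m ≤ v.v (ω.br a b)

/-- Weights in the first case. -/
theorem wt_A (hc : c ≠ 0) (hbr : ω.br S.x S.y = algebraMap ℂ L c * ev S.x S.y (wf A B))
    {v : DVal L} {m : ℤ} (hw : WR ω v m) (hf : v.v (ev S.x S.y (wf A B)) = 0)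
    (hx : v.Int S.x) (hy : v.Int S.y) :
    0 ≤ m ∧ ((∃ a, Rs v S.x a) → (∃ b, Rs v S.y b) → 1 ≤ m) := by
  have hf0 : ev S.x S.y (wf A B) ≠ 0 := S.ne (wf_ne A B)
  have hc' : algebraMap ℂ L c ≠ 0 := by simpa using hc
  have h1 : v.v (ω.br S.x S.y) = 0 := by
    rw [hbr, v.map_const_mul hc hf0, hf]
  have h2 : ω.br S.x S.y ≠ 0 := by
    rw [hbr]
    exact mul_ne_zero hc' hf0
  refine ⟨?_, ?_⟩
  · have := (hw.b0 _ _ hx hy).resolve_left h2
    omega
  · rintro ⟨a, ha⟩ ⟨b, hb⟩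
    have e1 : ω.br (S.x - algebraMap ℂ L a) (S.y - algebraMap ℂ L b) = ω.br S.x S.y := by
      have e2 : S.x - algebraMap ℂ L a = S.x + algebraMap ℂ L (-a) := by
        rw [map_neg, sub_eq_add_neg]
      have e3 : S.y - algebraMap ℂ L b = S.y + algebraMap ℂ L (-b) := by
        rw [map_neg, sub_eq_add_neg]
      rw [e2, e3, ω.add_left, ω.const_left, ω.add_right, ω.const_right]
      ring
    have nx : S.x - algebraMap ℂ L a ≠ 0 := by
      intro h0
      rw [h0, ω.zero_left] at e1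
      exact h2 e1.symm
    have ny : S.y - algebraMap ℂ L b ≠ 0 := by
      intro h0
      rw [h0, ω.zero_right] at e1
      exact h2 e1.symm
    have h3 := hw.b9 _ _ nx ny (by rw [e1]; exact h2)
    rw [e1, h1] at h3
    have px := ha.resolve_left nx
    have py := hb.resolve_left ny
    omega

/-- The local coordinate on the last exceptional curve. -/
def wl (S : Coord L) (A B : ℂ) (k : ℕ) : L :=
  ev S.x S.y (wf A B) * S.y⁻¹ ^ 3 * (S.x * S.y⁻¹)⁻¹ ^ k

theorem wl_ne (S : Coord L) (A B : ℂ) (k : ℕ) : wl S A B k ≠ 0 :=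
  mul_ne_zero (mul_ne_zero (S.ne (wf_ne A B)) (pow_ne_zero _ (inv_ne_zero S.y_ne)))
    (pow_ne_zero _ (inv_ne_zero (mul_ne_zero S.x_ne (inv_ne_zero S.y_ne))))

/-- Weights in the second case. -/
theorem wt_B (hc : c ≠ 0) (hbr : ω.br S.x S.y = algebraMap ℂ L c * ev S.x S.y (wf A B))
    {v : DVal L} {k : ℕ} (hu : 0 < v.v (S.x * S.y⁻¹)) (hy : v.v S.y < 0)
    (hwl : v.v (wl S A B k) = 0) :
    ω.br (S.x * S.y⁻¹) (wl S A B k) ≠ 0 ∧ v.v (ω.br (S.x * S.y⁻¹) (wl S A B k)) = 0 ∧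
    ∀ m : ℤ, WR ω v m → 0 ≤ m ∧ ((∃ a, Rs v (wl S A B k) a) → 1 ≤ m) := by
  have hw0 := wl_ne S A B k
  have hu0 : S.x * S.y⁻¹ ≠ 0 := mul_ne_zero S.x_ne (inv_ne_zero S.y_ne)
  have hc' : algebraMap ℂ L c ≠ 0 := by simpa using hc
  have hpt : v.Pos S.y⁻¹ := Or.inr (by rw [v.map_inv S.y_ne]; omega)
  have hpu : v.Pos (S.x * S.y⁻¹) := Or.inr hu
  obtain ⟨e1, e2⟩ := v.val_add_pos (a := 1)
    (b := - (2 * algebraMap ℂ L A * (S.x * S.y⁻¹) * S.y⁻¹ +
      3 * algebraMap ℂ L B * S.y⁻¹ ^ 2)) one_ne_zero v.map_one (by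
    refine v.pos_neg (v.pos_add ?_ ?_)
    · have e3 : 2 * algebraMap ℂ L A * (S.x * S.y⁻¹) * S.y⁻¹ =
          S.y⁻¹ * (algebraMap ℂ L (2 * A) * (S.x * S.y⁻¹)) := by
        rw [map_mul, map_ofNat]
        ring
      rw [e3]
      exact v.pos_mul_int hpt (v.int_mul (v.int_const _) hpu.int)
    · have e3 : 3 * algebraMap ℂ L B * S.y⁻¹ ^ 2 =
          S.y⁻¹ * (algebraMap ℂ L (3 * B) * S.y⁻¹) := by
        rw [map_mul, map_ofNat]
        ring
      rw [e3]
      exact v.pos_mul_int hpt (v.int_mul (v.int_const _) hpt.int))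
  have e4 : (1 : L) - 2 * algebraMap ℂ L A * (S.x * S.y⁻¹) * S.y⁻¹ -
      3 * algebraMap ℂ L B * S.y⁻¹ ^ 2 = 1 + - (2 * algebraMap ℂ L A * (S.x * S.y⁻¹) * S.y⁻¹ +
      3 * algebraMap ℂ L B * S.y⁻¹ ^ 2) := by ring
  have h1 := br_uw hbr k
  rw [e4] at h1
  have h1' : ω.br (S.x * S.y⁻¹) (wl S A B k) = - (algebraMap ℂ L c * wl S A B k *
      (1 + - (2 * algebraMap ℂ L A * (S.x * S.y⁻¹) * S.y⁻¹ +
        3 * algebraMap ℂ L B * S.y⁻¹ ^ 2))) := h1
  have h2 : ω.br (S.x * S.y⁻¹) (wl S A B k) ≠ 0 := by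
    rw [h1']
    exact neg_ne_zero.2 (mul_ne_zero (mul_ne_zero hc' hw0) e1)
  have h3 : v.v (ω.br (S.x * S.y⁻¹) (wl S A B k)) = 0 := by
    rw [h1', v.map_neg (mul_ne_zero (mul_ne_zero hc' hw0) e1),
      v.map_mul _ _ (mul_ne_zero hc' hw0) e1, v.map_const_mul hc hw0, hwl, e2]
    rfl
  refine ⟨h2, h3, fun m hm => ⟨?_, ?_⟩⟩
  · have := (hm.b0 _ _ hpu.int (Or.inr hwl.ge)).resolve_left h2
    omega
  · rintro ⟨a, ha⟩
    have e5 : ω.br (S.x * S.y⁻¹) (wl S A B k - algebraMap ℂ L a) =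
        ω.br (S.x * S.y⁻¹) (wl S A B k) := by
      have e6 : wl S A B k - algebraMap ℂ L a = wl S A B k + algebraMap ℂ L (-a) := by
        rw [map_neg, sub_eq_add_neg]
      rw [e6, ω.add_right, ω.const_right, add_zero]
    have nw : wl S A B k - algebraMap ℂ L a ≠ 0 := by
      intro h0
      rw [h0, ω.zero_right] at e5
      exact h2 e5.symm
    have h4 := hm.b9 _ _ hu0 nw (by rw [e5]; exact h2)
    rw [e5, h3] at h4
    have := ha.resolve_left nw
    omega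

end Wts

section Pts

variable {L : Type} [Field L] [Algebra ℂ L] {e d : ℕ} {A B : ℂ} {S : Coord L} {K : Type}
  [Field K] [Algebra ℂ K] {g : Fin 3 → LaurentPolynomial K} {i : L →ₐ[ℂ] RatFunc K}

/-- Constant residues of the regular functions, first case. -/
theorem TF.pt_A (h : TF e d A B S K g i) {v : DVal L}
    (hR : ∀ r ∈ TR K i, ∃ a : ℂ, v.Pos (r - algebraMap ℂ L a))
    (hf : v.v (ev S.x S.y (H48.wf A B)) = 0) : (∃ a, Rs v S.x a) ∧ ∃ b, Rs v S.y b := by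
  have hf0 : ev S.x S.y (H48.wf A B) ≠ 0 := S.ne (wf_ne A B)
  set f := ev S.x S.y (H48.wf A B) with hfd
  obtain ⟨a1, h1⟩ := hR _ h.inv_mem
  obtain ⟨a2, h2⟩ := hR _ h.x_mem
  obtain ⟨a3, h3⟩ := hR _ h.y_mem
  have h1' : Rs v f⁻¹ a1 := h1
  have h4 : Rs v f a1⁻¹ := by
    have := rs_inv h1' (inv_ne_zero hf0) (by rw [v.map_inv hf0, hf, neg_zero])
    rwa [inv_inv] at this
  have h2' : Rs v (S.x * f⁻¹ ^ 2) a2 := h2
  have h3' : Rs v (S.y * f⁻¹ ^ 3) a3 := h3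
  refine ⟨⟨a2 * a1⁻¹ ^ 2, ?_⟩, ⟨a3 * a1⁻¹ ^ 3, ?_⟩⟩
  · have h5 := rs_mul h2' (rs_pow h4 2)
    have h6 : S.x * f⁻¹ ^ 2 * f ^ 2 = S.x := by field_simp
    rw [h6] at h5
    exact h5
  · have h5 := rs_mul h3' (rs_pow h4 3)
    have h6 : S.y * f⁻¹ ^ 3 * f ^ 3 = S.y := by field_simp
    rw [h6] at h5
    exact h5

/-- Constant residues of the regular functions, second case. -/
theorem TF.pt_B (h : TF e d A B S K g i) {k : ℕ} (hk : k = e + 3) {v : DVal L}
    (hR : ∀ r ∈ TR K i, ∃ a : ℂ, v.Pos (r - algebraMap ℂ L a))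
    (hvx : v.v (S.x ^ d * (ev S.x S.y (H48.wf A B))⁻¹ ^ 2) = 0)
    (hw : v.Int (wl S A B k)) (ht : ∀ P : ℂ[X], P ≠ 0 → aeval (wl S A B k) P ≠ 0) :
    ∃ a, Rs v (wl S A B k) a := by
  have hf0 : ev S.x S.y (H48.wf A B) ≠ 0 := S.ne (wf_ne A B)
  have hx := S.x_ne
  have hy := S.y_ne
  have mx : S.x ^ d * (ev S.x S.y (H48.wf A B))⁻¹ ^ 2 ∈ TR K i :=
    ⟨g 1 ^ d, by
      show gam K (g 1 ^ d) = _
      rw [map_pow, ← h.xd_mem]
      rfl⟩
  have my : S.y ^ d * (ev S.x S.y (H48.wf A B))⁻¹ ^ 3 ∈ TR K i :=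
    ⟨g 2 ^ d, by
      show gam K (g 2 ^ d) = _
      rw [map_pow, ← h.yd_mem]
      rfl⟩
  obtain ⟨a1, h1⟩ := hR _ mx
  obtain ⟨a2, h2⟩ := hR _ my
  set f := ev S.x S.y (H48.wf A B) with hfd
  have h1' : Rs v (S.x ^ d * f⁻¹ ^ 2) a1 := h1
  have h2' : Rs v (S.y ^ d * f⁻¹ ^ 3) a2 := h2
  have hX0 : S.x ^ d * f⁻¹ ^ 2 ≠ 0 :=
    mul_ne_zero (pow_ne_zero _ hx) (pow_ne_zero _ (inv_ne_zero hf0))
  have h3 := rs_mul (rs_pow h2' e) (rs_pow (rs_inv h1' hX0 hvx) k)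
  have h4 : (S.y ^ d * f⁻¹ ^ 3) ^ e * (S.x ^ d * f⁻¹ ^ 2)⁻¹ ^ k = wl S A B k ^ d := by
    have hd : f ^ 6 = f ^ e * f ^ d := by rw [← pow_add, h.hed]
    have hed := h.hed
    unfold wl
    rw [← hfd, hk]
    have e1 : (S.y ^ d * f⁻¹ ^ 3) ^ e * (S.x ^ d * f⁻¹ ^ 2)⁻¹ ^ (e + 3) =
        S.y ^ (d * e) * (S.x⁻¹) ^ (d * (e + 3)) * f⁻¹ ^ (3 * e) * f ^ (2 * (e + 3)) := by
      rw [mul_pow, mul_inv, mul_pow, ← pow_mul, ← pow_mul, inv_pow, inv_pow, inv_pow, inv_pow,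
        inv_pow, ← pow_mul, ← pow_mul, inv_inv]
      ring
    have e2 : (f * S.y⁻¹ ^ 3 * (S.x * S.y⁻¹)⁻¹ ^ (e + 3)) ^ d =
        S.y ^ (d * e) * (S.x⁻¹) ^ (d * (e + 3)) * f ^ d := by
      have e3 : f * S.y⁻¹ ^ 3 * (S.x * S.y⁻¹)⁻¹ ^ (e + 3) = f * S.y ^ e * S.x⁻¹ ^ (e + 3) := by
        rw [mul_inv, inv_inv, mul_pow, pow_add S.y e 3]
        field_simp
      rw [e3, mul_pow, mul_pow, ← pow_mul, ← pow_mul, mul_comm e d, mul_comm (e + 3) d]
      ring
    rw [e1, e2]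
    have e4 : f ^ (2 * (e + 3)) = f ^ (3 * e) * f ^ d := by
      rw [← pow_add]
      congr 1
      omega
    rw [e4, inv_pow f]
    field_simp
  rw [h4] at h3
  by_contra hcon
  have h5 := resTr_of_not_const ht hw hcon
  set c' := a2 ^ e * a1⁻¹ ^ k with hc'
  have hd0 : d ≠ 0 := by
    have := h.hd
    omega
  obtain ⟨h6, h7⟩ := h5 (X ^ d - C c') (X_pow_sub_C_ne_zero (Nat.pos_of_ne_zero hd0) _)
  rw [map_sub, map_pow, aeval_X, aeval_C] at h6 h7
  rcases h3 with h8 | h8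
  · exact h6 h8
  · omega

end Pts

theorem weiF_eq {L : Type} [Field L] [Algebra ℂ L] (S : Coord L) (A B : ℂ) :
    weiF S A B = ev S.x S.y (wf A B) := by
  rw [ev_wf, weiF]
  ring

/-- Row T0FAM. -/
theorem t0fam (hKM : Pool.Agent.Helper48.KM.ST_ALL) (hD : ST_DOMF) (hE : ST_ET1) :
    ST_T0FAM := by
  intro L _ _ N ω x hA k S c A B hk3 hk8 W
  classical
  have hall : ∀ (v : DVal L) (m : ℤ), ω.Wt v m → WR ω v m := fun v m hm => by
    obtain ⟨-, h0, h9, -⟩ := H73.wt_all hA.trdeg hA.fg ω v hm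
    exact ⟨h0, h9⟩
  have hbr : ω.br S.x S.y = algebraMap ℂ L c * ev S.x S.y (wf A B) := by
    rw [W.br, weiF_eq]
  have hf0 : ev S.x S.y (wf A B) ≠ 0 := S.ne (wf_ne A B)
  obtain ⟨e, he⟩ : ∃ e, k = e + 3 := ⟨k - 3, by omega⟩
  obtain ⟨d, hd⟩ : ∃ d, e + d = 6 := ⟨6 - e, by omega⟩
  have hd1 : 1 ≤ d := by omega
  have hdom := (hKM A B W.hAB).1 e (by omega)
  have hV : ∀ P, P ∈ Pool.Agent.Helper48.KM.surfLow e A B ↔ MvPolynomial.eval P (GG e A B) = 0 ∧
      ∃ j, MvPolynomial.eval P ((![MvPolynomial.X 0, MvPolynomial.X 1 * MvPolynomial.X 2] :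
        Fin 2 → MvPolynomial (Fin 3) ℂ) j) ≠ 0 := by
    intro P
    rw [eval_GG, sub_eq_zero]
    unfold Pool.Agent.Helper48.KM.surfLow
    rw [Set.mem_ofPred_eq]
    refine and_congr Iff.rfl ?_
    rw [Fin.exists_fin_two]
    simp only [Matrix.cons_val_zero, Matrix.cons_val_one, Matrix.cons_val_fin_one, map_mul,
      MvPolynomial.eval_X]
    tauto
  have hne : (Pool.Agent.Helper48.KM.surfLow e A B).Nonempty := by
    obtain ⟨y0, hy1⟩ : ∃ y0 : ℂ, y0 ^ 2 - (1 ^ 3 + A * 1 + B) ≠ 0 := by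
      by_cases h1 : (1 : ℂ) ^ 2 - (1 ^ 3 + A * 1 + B) = 0
      · refine ⟨2, fun h2 => ?_⟩
        have h3 : (3 : ℂ) = 0 := by linear_combination h2 - h1
        norm_num at h3
      · exact ⟨1, h1⟩
    obtain ⟨z0, hz0, hz⟩ := exists_pt_GG hd1 hd A B 1 y0 hy1
    refine ⟨_, (hV _).2 ⟨hz, 0, ?_⟩⟩
    simpa using hz0
  obtain ⟨K, _, _, g, hKfg, hKtr, hker, hb, -⟩ := hD _ _ _ hV hne (prime_GG e A B)
    (trdeg_GG e A B) hdom
  obtain ⟨i, hi⟩ := exists_TF hd1 hd A B S hker hb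
  -- the second case
  have caseB : ∀ v : DVal L, v.v (ev S.x S.y (wf A B)) < 0 →
      d * v.v S.x = 2 * v.v (ev S.x S.y (wf A B)) →
      d * v.v S.y = 3 * v.v (ev S.x S.y (wf A B)) →
      0 < v.v (S.x * S.y⁻¹) ∧ v.v S.y < 0 ∧ v.v (wl S A B k) = 0 := by
    intro v h1 h2 h3
    have hdpos : (1 : ℤ) ≤ d := by exact_mod_cast hd1
    have hvu : v.v (S.x * S.y⁻¹) = v.v S.x - v.v S.y := by
      rw [v.map_mul _ _ S.x_ne (inv_ne_zero S.y_ne), v.map_inv S.y_ne]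
      ring
    have hu : (d : ℤ) * v.v (S.x * S.y⁻¹) = - v.v (ev S.x S.y (wf A B)) := by
      rw [hvu, mul_sub, h2, h3]
      ring
    have hvw : v.v (wl S A B k) = v.v (ev S.x S.y (wf A B)) - 3 * v.v S.y -
        k * v.v (S.x * S.y⁻¹) := by
      have hu0 : S.x * S.y⁻¹ ≠ 0 := mul_ne_zero S.x_ne (inv_ne_zero S.y_ne)
      unfold wl
      rw [v.map_mul _ _ (mul_ne_zero hf0 (pow_ne_zero _ (inv_ne_zero S.y_ne)))
        (pow_ne_zero _ (inv_ne_zero hu0)), v.map_mul _ _ hf0 (pow_ne_zero _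
        (inv_ne_zero S.y_ne)), v.map_pow (inv_ne_zero S.y_ne), v.map_pow (inv_ne_zero hu0),
        v.map_inv S.y_ne, v.map_inv hu0]
      push_cast
      ring
    refine ⟨?_, ?_, ?_⟩
    · by_contra h4
      nlinarith
    · by_contra h4
      nlinarith
    · have h5 : (d : ℤ) * v.v (wl S A B k) = 0 := by
        have hkd : (k : ℤ) + d = 9 := by
          have : k + d = 9 := by omega
          exact_mod_cast this
        have h6 : (d : ℤ) * v.v (wl S A B k) = (d : ℤ) * v.v (ev S.x S.y (wf A B)) -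
            3 * ((d : ℤ) * v.v S.y) - k * ((d : ℤ) * v.v (S.x * S.y⁻¹)) := by
          rw [hvw]
          ring
        rw [h6, h3, hu]
        linear_combination (v.v (ev S.x S.y (wf A B))) * hkd
      exact (mul_eq_zero.1 h5).resolve_left (by omega)
  have hET := hE L ω (TR K i) K i hA.fg hA.trdeg hKfg hKtr hA.h1
    (fun r hr P hP hX => TR_reg hr hP hX) (by
      intro P hP hX v m hv hm
      have hWR := hall v m hm
      rcases hi.cases hP hX hv with ⟨h1, h2, h3⟩ | ⟨h1, h2, h3, h4, h5⟩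
      · obtain ⟨h6, h7⟩ := wt_A W.hc hbr hWR h1 h2 h3
        refine ⟨fun hat => ?_, fun _ => h6⟩
        obtain ⟨h8, h9⟩ := hi.pt_A hat h1
        exact h7 h8 h9
      · obtain ⟨h6, h7, h8⟩ := caseB v h1 h2 h3
        obtain ⟨h9, h10, h11⟩ := wt_B W.hc hbr h6 h7 h8
        obtain ⟨h12, h13⟩ := h11 m hWR
        refine ⟨fun hat => h13 ?_, fun _ => h12⟩
        exact hi.pt_B he hat h4 (Or.inr h8.ge) (trans_of_br h9))
  refine ⟨K, inferInstance, inferInstance, i, ?_, ?_⟩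
  · -- not constant
    by_contra hcon
    push Not at hcon
    have h1 : i.range ≤ (IsScalarTower.toAlgHom ℂ K (RatFunc K)).range := by
      rintro _ ⟨z, rfl⟩
      obtain ⟨c', hc'⟩ := hcon z
      exact ⟨c', by
        show algebraMap K (RatFunc K) c' = i z
        rw [hc', RatFunc.algebraMap_eq_C]⟩
    have h2 : Function.Injective (IsScalarTower.toAlgHom ℂ K (RatFunc K)) :=
      (algebraMap K (RatFunc K)).injective
    have h3 := trdeg_le_of_injective ((AlgEquiv.ofInjective _ h2).symm.toAlgHom.comp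
      ((Subalgebra.inclusion h1).comp (AlgEquiv.ofInjective i i.injective).toAlgHom)) (by
        refine (AlgEquiv.ofInjective _ h2).symm.injective.comp
          ((Subalgebra.inclusion_injective h1).comp (AlgEquiv.ofInjective i i.injective).injective))
    rw [hA.trdeg, hKtr] at h3
    exact absurd h3 (by norm_num)
  · intro P hP hX
    right
    obtain ⟨v, hv, hat, hw0⟩ := hET P hP hX
    have hWR := hall v 0 hw0
    refine ⟨v, ?_, hw0, hv⟩
    rcases hi.cases hP hX hv with ⟨h1, h2, h3⟩ | ⟨h1, h2, h3, h4, h5⟩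
    · have hnc : ¬ ((∃ a : ℂ, v.Pos (S.x - algebraMap ℂ L a)) ∧
          ∃ b : ℂ, v.Pos (S.y - algebraMap ℂ L b)) := by
        rintro ⟨h4, h5⟩
        have := (wt_A W.hc hbr hWR h1 h2 h3).2 h4 h5
        omega
      obtain ⟨π, hπ, hπ1⟩ := v.exists_unif
      obtain ⟨F, G, hG, hFG⟩ := S.surj π
      have hF : F ≠ 0 := by
        rintro rfl
        rw [map_zero, zero_div] at hFG
        exact hπ hFG
      have hval : v.v (ev S.x S.y F) - v.v (ev S.x S.y G) = 1 := by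
        rw [← v.map_div (S.ne hF) (S.ne hG), ← hFG, hπ1]
      have hG0 := (v.int_ev h2 h3 G).resolve_left (S.ne hG)
      obtain ⟨p, hp, hpp, hdvd⟩ := exists_prime_centre v S h2 h3 hnc hF (Or.inr (by omega))
      have hpne := S.ne hp.ne_zero
      have hp1 : 0 < v.v (ev S.x S.y p) := hpp.resolve_left hpne
      have hplace : IsPlaceOf S p v := by
        refine ⟨hp1, fun q hq => ?_⟩
        have hq0 : q ≠ 0 := by
          rintro rfl
          exact hq (dvd_zero p)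
        have h6 := (v.int_ev h2 h3 q).resolve_left (S.ne hq0)
        by_contra h7
        exact hq (hdvd q (Or.inr (by omega)))
      have hnd : ¬ p ∣ (X ^ 2 - C (X ^ 3 + C A * X + C B) : ℂ[X][X]) := by
        rintro ⟨q, hq⟩
        have hq' : wf A B = p * q := hq
        have hq0 : q ≠ 0 := by
          rintro rfl
          rw [mul_zero] at hq'
          exact wf_ne A B hq'
        have h6 := (v.int_ev h2 h3 q).resolve_left (S.ne hq0)
        rw [hq', map_mul, v.map_mul _ _ hpne (S.ne hq0)] at h1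
        omega
      exact (W.pl p v hp.irreducible hnd hplace).1
    · obtain ⟨h6, h7, h8⟩ := caseB v h1 h2 h3
      obtain ⟨h9, h10, h11⟩ := wt_B W.hc hbr h6 h7 h8
      have hnc : ¬ ∃ a, Rs v (wl S A B k) a := fun h12 => by
        have := (h11 0 hWR).2 h12
        omega
      have hres : ResTr v.v (wl S A B k) :=
        resTr_of_not_const (trans_of_br h9) (Or.inr h8.ge) hnc
      have hgood : GoodWt ω v 0 := by
        obtain ⟨a1, a2, -⟩ := H73.wt_all hA.trdeg hA.fg ω v hw0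
        refine ⟨a1, fun t a ht ha => a2 t a ?_ ha⟩
        right
        have := ht X X_ne_zero
        rw [aeval_X] at this
        exact this.2.ge
      have hu0 : S.x * S.y⁻¹ ≠ 0 := mul_ne_zero S.x_ne (inv_ne_zero S.y_ne)
      have hvu : v.v (S.x * S.y⁻¹) = 1 := by
        obtain ⟨n, hn⟩ := Int.eq_ofNat_of_zero_le h6.le
        have hn0 : n ≠ 0 := by
          rintro rfl
          rw [hn] at h6
          exact lt_irrefl _ h6
        obtain ⟨b1, b2⟩ := hgood.br_val hres hu0 hn0 hn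
        rw [ω.skew, v.map_neg h9, h10] at b2
        rw [hn]
        omega
      have hvd : v.v (S.x * S.y⁻¹) = v.v S.x - v.v S.y := by
        rw [v.map_mul _ _ S.x_ne (inv_ne_zero S.y_ne), v.map_inv S.y_ne]
        ring
      have hdpos : (1 : ℤ) ≤ d := by exact_mod_cast hd1
      have hvf : v.v (ev S.x S.y (wf A B)) = - d := by
        have : (d : ℤ) * (v.v S.x - v.v S.y) = - v.v (ev S.x S.y (wf A B)) := by
          rw [mul_sub, h2, h3]
          ring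
        rw [← hvd, hvu] at this
        linarith
      have hvy : v.v S.y = -3 := by
        rw [hvf] at h3
        have h12 : (d : ℤ) * (v.v S.y + 3) = 0 := by linarith
        have := (mul_eq_zero.1 h12).resolve_left (by omega)
        linarith
      have hφ : weiF S A B / S.y ^ 3 = ev S.x S.y (wf A B) * S.y⁻¹ ^ 3 := by
        rw [weiF_eq, div_eq_mul_inv, inv_pow]
      refine (W.exc v h7 (by rw [div_eq_mul_inv]; exact hvu) ?_ ?_).1
      · rw [weiF_eq, v.map_div hf0 (pow_ne_zero _ S.y_ne), v.map_pow S.y_ne, hvf, hvy]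
        have : k + d = 9 := by omega
        push_cast
        omega
      · have h12 : weiF S A B / S.y ^ 3 / (S.x / S.y) ^ k = wl S A B k := by
          rw [hφ, div_eq_mul_inv (_ * _), ← inv_pow, div_eq_mul_inv S.x S.y]
          rfl
        rw [h12]
        exact hres

end H48

end

end LCY
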