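import Pool.Agent.Helper48.LCY.Main
import Pool.Agent.Helper73.LCY.BR89
import Pool.Agent.Helper27.LCY.BR2

/-!
The rules of the 2-form, and the admissible pair of a log Calabi-Yau surface (MP_f7e214_ag).
-/

open Polynomial

namespace LCY

noncomputable section

namespace H48

/-- The rules of the 2-form. -/
theorem rules : ST_RULES := by
  intro L _ _ hfg htr ω
  refine ⟨fun v => ?_, fun v k hk a b ha hb hab => ?_, fun v k hk a b ha hb hab => ?_⟩
  · obtain ⟨k, h1, _⟩ := H73.br8s htr hfg ω v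
    exact ⟨k, h1⟩
  · exact (H73.wt_all htr hfg ω v hk).2.2.1 a b ha hb hab
  · exact ((H73.wt_all htr hfg ω v hk).2.1 a b ha hb).resolve_left hab

/-- The coordinate functions generate the function field, whichever coordinate is taken as
denominator. -/
theorem adjoin_ratio {L : Type} [Field L] [Algebra ℂ L] {N : ℕ} {x : Fin (N + 1) → L}
    (h : IntermediateField.adjoin ℂ (Set.range x) = ⊤) (i0 : Fin (N + 1)) (h0 : x i0 = 1)
    (i : Fin (N + 1)) (hi : x i ≠ 0) :
    IntermediateField.adjoin ℂ (Set.range fun j => x j / x i) = ⊤ := by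
  rw [← top_le_iff, ← h, IntermediateField.adjoin_le_iff]
  set F := IntermediateField.adjoin ℂ (Set.range fun j => x j / x i) with hF
  have h1 : ∀ j, x j / x i ∈ F := fun j =>
    IntermediateField.subset_adjoin _ _ ⟨j, rfl⟩
  have h2 : x i ∈ F := by
    have := F.inv_mem (h1 i0)
    rwa [h0, one_div, inv_inv] at this
  rintro _ ⟨j, rfl⟩
  have := F.mul_mem (h1 j) h2
  rwa [div_mul_cancel₀ _ hi] at this

theorem x_i0 {N : ℕ} (Y : Var N) : Y.x Y.i0 = 1 := by
  apply Subtype.ext
  show Y.cls _ / Y.cls _ = 1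
  exact div_self (Y.cls_ne (Classical.choose_spec Y.relevant))

/-- The admissible pair of a log Calabi-Yau surface. -/
theorem adm_of_logCY (h4 : ST_BR4) (h6 : ST_BR6) (h7 : ST_BR7) {N : ℕ} {Y : Var N}
    {D : Set (Var N)} (h : LogCY Y D) {ω : Y.Forms}
    (hc : ∀ C, Y.IsCurveOn C → C ∉ D → (Y.regForms C : Set Y.Forms) = Y.mults C ω)
    (hd : ∀ C ∈ D, (Y.regForms C : Set Y.Forms) = Y.maxMults C ω) {B : Bracket Y.L}
    (hB : ∀ a b, Y.form 1 a b = B.br a b • ω) : Adm B Y.x := by
  have htr := (br1 _ Y h.surface).1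
  have hfg := H73.fg_of_hasDim Y h.surface
  refine ⟨hfg, htr, ⟨Y.i0, by rw [x_i0]; exact one_ne_zero⟩, fun i hi => ?_,
    fun v k hk => (h7 N Y D h ω B hB hc hd v k hk).1, fun v k hk hv => ?_⟩
  · have e := adjoin_ratio (br1 _ Y h.surface).2 Y.i0 (x_i0 Y) i hi
    rw [e]
    exact ⟨fun z => isAlgebraic_algebraMap (A := Y.L) (⟨z, trivial⟩ : (⊤ : IntermediateField ℂ Y.L))⟩
  · have hu := (H73.wt_all htr hfg B v hk).2.2.2
    rcases h4 N Y h.surface h.normal v with ⟨_, C, hC, hCv⟩ | ⟨hv', _⟩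
    · have h5 := h6 N Y h.surface h.normal ω B hB C hC v hCv
      by_cases hCD : C ∈ D
      · have := hu _ (h5.2 (hd C hCD))
        omega
      · have := hu _ (h5.1 (hc C hC hCD))
        omega
    · exact absurd hv' hv

end H48

end

end LCY
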