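import Pool.Agent.Helper48.LCY.Top
import Pool.Agent.Helper51.LCY.P2

/-!
Row DELTA of MP_f7e214_ag: over a base with a nonzero regular differential no horizontal place at
which the 2-form is regular is contracted.
-/

open Polynomial

namespace LCY

noncomputable section

/-- The rules of the 2-form that are used (rows BR8, BR9, B0) for one field. -/
structure Rules {L : Type} [Field L] [Algebra ℂ L] (ω : Bracket L) : Prop where
  w8 : ∀ v : DVal L, ∃ k : ℤ, ∀ t π, ResTr v.v t → π ≠ 0 → v.v π = 1 →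
    ω.br t π ≠ 0 ∧ v.v (ω.br t π) = - k
  w9 : ∀ (v : DVal L) (k : ℤ), ω.Wt v k → ∀ a b, a ≠ 0 → b ≠ 0 → ω.br a b ≠ 0 →
    v.v a + v.v b - 1 - k ≤ v.v (ω.br a b)
  w0 : ∀ (v : DVal L) (k : ℤ), ω.Wt v k → ∀ a b, v.Int a → v.Int b → ω.br a b ≠ 0 →
    - k ≤ v.v (ω.br a b)

namespace H48

variable {L : Type} [Field L] [Algebra ℂ L]

theorem v_add_lt (v : DVal L) {a b : L} (ha : a ≠ 0) (hb : b = 0 ∨ v.v a < v.v b) :
    a + b ≠ 0 ∧ v.v (a + b) = v.v a := by
  rcases eq_or_ne b 0 with rfl | hb0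
  · rw [add_zero]
    exact ⟨ha, rfl⟩
  have hlt := hb.resolve_left hb0
  have h1 := v.val_add_pos (a := 1) (b := b / a) one_ne_zero v.map_one
    (Or.inr (by rw [v.map_div hb0 ha]; omega))
  have h2 : a + b = a * (1 + b / a) := by
    field_simp
  rw [h2]
  refine ⟨mul_ne_zero ha h1.1, ?_⟩
  rw [v.map_mul _ _ ha h1.1, h1.2, add_zero]

/-- The valuation ring. -/
def vring (v : DVal L) : ValuationSubring L where
  carrier := {a | v.Int a}
  mul_mem' := fun ha hb => v.int_mul ha hb
  one_mem' := v.int_one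
  add_mem' := fun ha hb => v.int_add ha hb
  zero_mem' := v.int_zero
  neg_mem' := fun ha => v.int_neg ha
  mem_or_inv_mem' := fun a => by
    rcases eq_or_ne a 0 with rfl | ha
    · exact Or.inl v.int_zero
    · rcases le_total 0 (v.v a) with h | h
      · exact Or.inl (Or.inr h)
      · right
        right
        rw [v.map_inv ha]
        omega

/-- In a field of transcendence degree one everything is algebraic over the field generated by a
transcendental element. -/
theorem alg_of_trdeg_one {L : Type} [Field L] [Algebra ℂ L] (E : IntermediateField ℂ L)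
    (htr : Algebra.trdeg ℂ E = 1) (s φ : E) (hs : Transcendental ℂ s) :
    IsAlgebraic (IntermediateField.adjoin ℂ {(s : L)}) (φ : L) := by
  have h1 : AlgebraicIndependent ℂ (fun _ : Unit => s) :=
    (algebraicIndependent_unique_type_iff).2 hs
  have h2 : IsTranscendenceBasis ℂ (fun _ : Unit => s) :=
    h1.isTranscendenceBasis_of_trdeg_le_of_finite (by rw [htr]; simp)
  have h3 : IsAlgebraic (Algebra.adjoin ℂ (Set.range (fun _ : Unit => s))) φ :=
    h2.isAlgebraic.isAlgebraic φ
  obtain ⟨P, hP, hPe⟩ := h3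
  have hmem : ∀ z : Algebra.adjoin ℂ (Set.range (fun _ : Unit => s)),
      ((z : E) : L) ∈ IntermediateField.adjoin ℂ {(s : L)} := by
    intro z
    have hz := z.2
    refine Algebra.adjoin_induction (p := fun (y : E) _ =>
      (y : L) ∈ IntermediateField.adjoin ℂ {(s : L)}) ?_ ?_ ?_ ?_ hz
    · rintro y ⟨_, rfl⟩
      exact IntermediateField.mem_adjoin_simple_self ℂ (s : L)
    · intro c
      exact (IntermediateField.adjoin ℂ {(s : L)}).algebraMap_mem c
    · intro a b _ _ ha hb
      exact add_mem ha hb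
    · intro a b _ _ ha hb
      exact mul_mem ha hb
  let f : Algebra.adjoin ℂ (Set.range (fun _ : Unit => s)) →+*
      IntermediateField.adjoin ℂ {(s : L)} :=
    { toFun := fun z => ⟨((z : E) : L), hmem z⟩
      map_one' := rfl
      map_mul' := fun _ _ => rfl
      map_zero' := rfl
      map_add' := fun _ _ => rfl }
  have hf : Function.Injective f := by
    intro a b hab
    have : ((a : E) : L) = ((b : E) : L) := congrArg (fun z : IntermediateField.adjoin ℂ {(s : L)} => (z : L)) hab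
    exact Subtype.ext (Subtype.ext this)
  refine ⟨P.map f, (Polynomial.map_ne_zero_iff hf).2 hP, ?_⟩
  have h4 : algebraMap E L (aeval φ P) = 0 := by rw [hPe, map_zero]
  rw [aeval_def, hom_eval₂] at h4
  rw [aeval_def, eval₂_map]
  exact h4

/-- A residually transcendental element makes the valuation trivial on the algebraic closure of
the field it generates. -/
theorem int_of_resTr (v : DVal L) {s : L} (hs : ResTr v.v s) (φ : L)
    (hφ : IsAlgebraic (IntermediateField.adjoin ℂ {s}) φ) : v.Int φ := by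
  have hF : ∀ z ∈ IntermediateField.adjoin ℂ {s}, v.Int z := by
    intro z hz
    obtain ⟨p, q, rfl⟩ := IntermediateField.mem_adjoin_simple_iff ℂ z |>.1 hz
    by_cases hp : aeval s p = 0
    · left
      rw [hp, zero_div]
    by_cases hq : aeval s q = 0
    · left
      rw [hq, div_zero]
    right
    have hp0 : p ≠ 0 := by
      rintro rfl
      exact hp (map_zero _)
    have hq0 : q ≠ 0 := by
      rintro rfl
      exact hq (map_zero _)
    rw [v.map_div hp hq, (hs p hp0).2, (hs q hq0).2]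
    omega
  have hint : IsIntegral (IntermediateField.adjoin ℂ {s}) φ := hφ.isIntegral
  have h2 : IsIntegral (vring v) φ := by
    obtain ⟨P, hP, hPe⟩ := hint
    let f : IntermediateField.adjoin ℂ {s} →+* vring v :=
      { toFun := fun z => ⟨z.1, hF z.1 z.2⟩
        map_one' := rfl
        map_mul' := fun _ _ => rfl
        map_zero' := rfl
        map_add' := fun _ _ => rfl }
    refine ⟨P.map f, hP.map f, ?_⟩
    rw [eval₂_map]
    exact hPe
  obtain ⟨y, hy⟩ := IsIntegrallyClosed.isIntegral_iff.1 h2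
  rw [← hy]
  exact y.2

/-- The restriction of a divisorial valuation to a subfield. -/
def restr (v : DVal L) (E : IntermediateField ℂ L) : CVal E where
  w := fun z => v.v z.1
  map_mul := fun a b ha hb => v.map_mul a.1 b.1 (fun h => ha (Subtype.ext h))
    (fun h => hb (Subtype.ext h))
  map_add := fun a b ha hb hab => v.map_add a.1 b.1 (fun h => ha (Subtype.ext h))
    (fun h => hb (Subtype.ext h)) (fun h => hab (Subtype.ext h))
  map_const := fun c hc => v.map_const c hc

/-- The derivation `a ↦ φ {s, a}` of a regular differential lowers the value by at most the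
value of the 2-form. -/
theorem delta_int (ω : Bracket L) (hR : Rules ω) (E : IntermediateField ℂ L)
    (htr : Algebra.trdeg ℂ E = 1) {φ s : E} (hd : RegDiff E φ s) (v : DVal L) (k : ℤ)
    (hk : ω.Wt v k) (a : L) (ha : v.Int a) (hne : ω.br s a ≠ 0) :
    - k ≤ v.v ((φ : L) * ω.br s a) := by
  obtain ⟨hφ, hs, hw⟩ := hd
  have hφ0 : (φ : L) ≠ 0 := fun h => hφ (Subtype.ext h)
  have hsL : Transcendental ℂ (s : L) := by
    intro h
    exact hs ((isAlgebraic_algebraMap_iff (algebraMap E L).injective).1 h)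
  have hsc : ∀ c : ℂ, (s : L) - algebraMap ℂ L c ≠ 0 := by
    intro c h
    apply hsL
    rw [sub_eq_zero.1 h]
    exact isAlgebraic_algebraMap c
  have ha0 : a ≠ 0 := by
    rintro rfl
    exact hne (ω.zero_right _)
  have hva := ha.resolve_left ha0
  rw [v.map_mul _ _ hφ0 hne]
  obtain ⟨hw1, hw2⟩ := hw (restr v E)
  by_cases hpos : ∃ c : ℂ, 0 < v.v ((s : L) - algebraMap ℂ L c)
  · obtain ⟨c, hc⟩ := hpos
    have h1 := hw1 c hc
    have h3 : ω.br ((s : L) - algebraMap ℂ L c) a = ω.br s a := by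
      rw [ω.sub_left, ω.const_left, sub_zero]
    have h2 := hR.w9 v k hk ((s : L) - algebraMap ℂ L c) a (hsc c) ha0 (by rwa [h3])
    rw [h3] at h2
    have h4 : (restr v E).w φ = v.v (φ : L) := rfl
    have h5 : (restr v E).w (s - algebraMap ℂ E c) = v.v ((s : L) - algebraMap ℂ L c) := rfl
    rw [h4, h5] at h1
    omega
  · by_cases hneg : v.v (s : L) < 0
    · have h1 := hw2 hneg
      have h2 := hR.w9 v k hk (s : L) a (fun h => by
        rw [h] at hne
        exact hne (ω.zero_left _)) ha0 hne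
      have h4 : (restr v E).w φ = v.v (φ : L) := rfl
      have h5 : (restr v E).w s = v.v (s : L) := rfl
      rw [h4, h5] at h1
      omega
    · have hs0 : (s : L) ≠ 0 := by
        have := hsc 0
        rwa [map_zero, sub_zero] at this
      have hsI : v.Int (s : L) := Or.inr (by omega)
      have hP0 : ∀ P : ℂ[X], P ≠ 0 → aeval (s : L) P ≠ 0 := by
        intro P hP h
        exact hsL ⟨P, hP, h⟩
      have hres : ResTr v.v (s : L) := by
        intro P hP
        refine ⟨hP0 P hP, ?_⟩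
        by_contra hcon
        have h1 := v.int_aeval hsI P
        have h2 := h1.resolve_left (hP0 P hP)
        have h3 : 0 < v.v (aeval (s : L) P) := lt_of_le_of_ne h2 (Ne.symm hcon)
        exact hpos (v.exists_const hP0 _ P le_rfl hP h3)
      have halg : IsAlgebraic (IntermediateField.adjoin ℂ {(s : L)}) (φ : L) :=
        alg_of_trdeg_one E htr s φ hs
      have h1 := (int_of_resTr v hres φ halg).resolve_left hφ0
      have h2 := hR.w0 v k hk _ _ hsI ha hne
      omega

/-- The value of `φ {s, a}` at a horizontal place is one less than the value of `a`, minus the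
value of the 2-form. -/
theorem delta_val (ω : Bracket L) (hR : Rules ω) (v : DVal L) (k : ℤ) (hk : ω.Wt v k) {φ s : L}
    (hφ0 : φ ≠ 0) (hφv : v.v φ = 0) (hres : ResTr v.v s) {a : L} (ha0 : a ≠ 0)
    (ha : 0 < v.v a) :
    φ * ω.br s a ≠ 0 ∧ v.v (φ * ω.br s a) = v.v a - 1 - k := by
  obtain ⟨π, hπ0, hπ1⟩ := v.exists_unif
  obtain ⟨k', hk'⟩ := hR.w8 v
  have hkk : k' = k := by
    obtain ⟨t1, π1, h1, h2, h3, h4, h5⟩ := hk
    have := (hk' t1 π1 h1 h2 h3).2
    omega
  rw [hkk] at hk'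
  obtain ⟨hb0, hbv⟩ := hk' s π hres hπ0 hπ1
  obtain ⟨j, hj⟩ : ∃ j : ℕ, v.v a = j := ⟨(v.v a).toNat, by omega⟩
  have hj0 : j ≠ 0 := by
    rintro rfl
    simp at hj
    omega
  set u : L := a / π ^ j with hu
  have hπj : π ^ j ≠ 0 := pow_ne_zero j hπ0
  have hu0 : u ≠ 0 := div_ne_zero ha0 hπj
  have huv : v.v u = 0 := by
    rw [hu, v.map_div ha0 hπj, v.map_pow hπ0, hπ1, hj]
    ring
  have hau : a = π ^ j * u := by
    rw [hu]
    field_simp
  have hs0 : s ≠ 0 := by
    have := (hres X X_ne_zero).1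
    rwa [aeval_X] at this
  have hsI : v.Int s := by
    right
    have := (hres X X_ne_zero).2
    rw [aeval_X] at this
    omega
  have hbr : ω.br s a = j * π ^ (j - 1) * u * ω.br s π + π ^ j * ω.br s u := by
    rw [hau, ω.mul_right, ω.skew s (π ^ j), ω.pow_left, ω.skew s π]
    ring
  have hjL : ((j : ℕ) : L) ≠ 0 := by
    have : ((j : ℂ)) ≠ 0 := Nat.cast_ne_zero.2 hj0
    have h2 := (map_ne_zero (algebraMap ℂ L)).2 this
    rwa [map_natCast] at h2
  have hjv : v.v ((j : ℕ) : L) = 0 := by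
    have h2 := v.map_const (j : ℂ) (Nat.cast_ne_zero.2 hj0)
    rwa [map_natCast] at h2
  have hπj1 : π ^ (j - 1) ≠ 0 := pow_ne_zero _ hπ0
  have hA0 : (j : L) * π ^ (j - 1) * u * ω.br s π ≠ 0 :=
    mul_ne_zero (mul_ne_zero (mul_ne_zero hjL hπj1) hu0) hb0
  have hAv : v.v ((j : L) * π ^ (j - 1) * u * ω.br s π) = j - 1 - k := by
    rw [v.map_mul _ _ (mul_ne_zero (mul_ne_zero hjL hπj1) hu0) hb0,
      v.map_mul _ _ (mul_ne_zero hjL hπj1) hu0, v.map_mul _ _ hjL hπj1, v.map_pow hπ0, hπ1, hjv,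
      huv, hbv]
    have : ((j - 1 : ℕ) : ℤ) = (j : ℤ) - 1 := by
      have : 1 ≤ j := Nat.one_le_iff_ne_zero.2 hj0
      push_cast [this]
      ring
    rw [this]
    ring
  have hB : π ^ j * ω.br s u = 0 ∨
      v.v ((j : L) * π ^ (j - 1) * u * ω.br s π) < v.v (π ^ j * ω.br s u) := by
    by_cases h0 : ω.br s u = 0
    · left
      rw [h0, mul_zero]
    · right
      have h1 := hR.w0 v k hk s u hsI (Or.inr huv.ge) h0
      rw [hAv, v.map_mul _ _ hπj h0, v.map_pow hπ0, hπ1]
      omega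
  obtain ⟨h1, h2⟩ := v_add_lt v hA0 hB
  rw [← hbr] at h1 h2
  refine ⟨mul_ne_zero hφ0 h1, ?_⟩
  rw [v.map_mul _ _ hφ0 h1, h2, hAv, hφv, hj]
  ring

/-- Row DELTA from the rules of the 2-form and the normal ring. -/
theorem delta (hNR : ST_NR) {N : ℕ} (ω : Bracket L) (hR : Rules ω) (x : Fin (N + 1) → L)
    (hA : Adm ω x) (E : IntermediateField ℂ L) (htr : Algebra.trdeg ℂ E = 1) (φ s : E)
    (hd : RegDiff E φ s) (v : DVal L) (k : ℤ) (hv : Horiz E v) (hk : ω.Wt v k) (hk0 : 0 ≤ k) :
    ¬ Contracted x v := by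
  intro hc
  -- a chart containing the centre of `v`
  obtain ⟨i, hi0, hi⟩ : ∃ i, x i ≠ 0 ∧ ∀ j, v.Int (x j / x i) := by
    classical
    obtain ⟨i1, hi1⟩ := hA.nz
    obtain ⟨i, hi, hmin⟩ := (Finset.univ.filter fun i => x i ≠ 0).exists_min_image
      (fun i => v.v (x i)) ⟨i1, by simpa using hi1⟩
    have hi0 : x i ≠ 0 := by simpa using hi
    refine ⟨i, hi0, fun j => ?_⟩
    by_cases hj : x j = 0
    · left
      rw [hj, zero_div]
    · right
      rw [v.map_div hj hi0]
      have := hmin j (by simpa using hj)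
      omega
  obtain ⟨hN1, hN2⟩ := hNR L N x hA.fg hA.trdeg i hi0 (hA.alg i hi0)
  -- the normal ring
  set R : Set L := {h | ∀ w : DVal L, ¬ Contracted x w → (∀ j, w.Int (x j / x i)) → w.Int h}
    with hRdef
  have hRint : ∀ h ∈ R, v.Int h := fun h hh => (hN1 h hh v hi).1
  have hRres : ∀ h ∈ R, ∃ c : ℂ, v.Pos (h - algebraMap ℂ L c) :=
    fun h hh => (hN1 h hh v hi).2 hc
  have hφ0 : (φ : L) ≠ 0 := fun h => hd.1 (Subtype.ext h)
  have hφv : v.v (φ : L) = 0 := hv _ φ.2 hφ0
  have hsL : Transcendental ℂ (s : L) := by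
    intro h
    exact hd.2.1 ((isAlgebraic_algebraMap_iff (algebraMap E L).injective).1 h)
  have hres : ResTr v.v (s : L) := by
    intro P hP
    have h0 : aeval (s : L) P ≠ 0 := fun h => hsL ⟨P, hP, h⟩
    refine ⟨h0, hv _ ?_ h0⟩
    have h1 : aeval (s : L) P = ((aeval s P : E) : L) := by
      have := aeval_algebraMap_apply L s P
      exact this
    rw [h1]
    exact (aeval s P).2
  -- the derivation maps the ring to itself
  have hRδ : ∀ h ∈ R, (φ : L) * ω.br s h ∈ R := by
    intro h hh w hwc hwi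
    by_cases hne : ω.br s h = 0
    · left
      rw [hne, mul_zero]
    obtain ⟨k', hk'⟩ := hR.w8 w
    obtain ⟨t, ht⟩ := w.exists_res
    obtain ⟨π, hπ0, hπ1⟩ := w.exists_unif
    have hW : ω.Wt w k' := ⟨t, π, ht, hπ0, hπ1, (hk' t π ht hπ0 hπ1).1, (hk' t π ht hπ0 hπ1).2⟩
    have h1 := hA.h2 w k' hW hwc
    have h2 := delta_int ω hR E htr hd w k' hW h (hh w hwc hwi) hne
    right
    omega
  have hval : ∀ h, h ≠ 0 → 0 < v.v h →
      (φ : L) * ω.br s h ≠ 0 ∧ v.v ((φ : L) * ω.br s h) = v.v h - 1 - k :=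
    fun h h0 hp => delta_val ω hR v k hk hφ0 hφv hres h0 hp
  have hfrac : ∀ z : L, z ≠ 0 → ∃ a ∈ R, ∃ b ∈ R, a ≠ 0 ∧ b ≠ 0 ∧ z = a / b := by
    intro z hz
    obtain ⟨a, b, hb, hzab, ha1, hb1⟩ := hN2 z
    refine ⟨a, fun w _ hwi => ha1 w hwi, b, fun w _ hwi => hb1 w hwi, ?_, hb, hzab⟩
    rintro rfl
    exact hz (by rw [hzab, zero_div])
  -- the least positive value on the ring
  have hex : ∃ n : ℕ, 0 < n ∧ ∃ a ∈ R, a ≠ 0 ∧ v.v a = n := by
    obtain ⟨π, hπ0, hπ1⟩ := v.exists_unif
    obtain ⟨a, ha, b, hb, ha0, hb0, hπab⟩ := hfrac π hπ0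
    have h1 : v.v a - v.v b = 1 := by
      rw [← v.map_div ha0 hb0, ← hπab, hπ1]
    have h2 := (hRint b hb).resolve_left hb0
    exact ⟨(v.v a).toNat, by omega, a, ha, ha0, by omega⟩
  classical
  set n := Nat.find hex with hn
  obtain ⟨hn0, a0, ha0R, ha00, ha0v⟩ := Nat.find_spec hex
  rw [← hn] at hn0 ha0v
  have hmin : ∀ a ∈ R, a ≠ 0 → 0 < v.v a → (n : ℤ) ≤ v.v a := by
    intro a ha h0 hp
    by_contra hlt
    push Not at hlt
    have := Nat.find_min hex (m := (v.v a).toNat) (by omega)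
    exact this ⟨by omega, a, ha, h0, by omega⟩
  have hnk : (n : ℤ) = 1 + k := by
    obtain ⟨h1, h2⟩ := hval a0 ha00 (by omega)
    have h3 := (hRint _ (hRδ a0 ha0R)).resolve_left h1
    by_contra hne
    have h4 := hmin _ (hRδ a0 ha0R) h1 (by omega)
    omega
  -- all values are multiples of `n`
  have hmul : ∀ m : ℕ, ∀ a ∈ R, a ≠ 0 → v.v a = m → (n : ℤ) ∣ v.v a := by
    intro m
    induction m using Nat.strong_induction_on with
    | _ m ih =>
      intro a ha h0 hm
      rcases Nat.eq_zero_or_pos m with rfl | hmp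
      · rw [hm]
        simp
      obtain ⟨h1, h2⟩ := hval a h0 (by omega)
      have h3 := (hRint _ (hRδ a ha)).resolve_left h1
      have h4 := ih (v.v ((φ : L) * ω.br s a)).toNat (by omega) _ (hRδ a ha) h1 (by omega)
      rw [h2] at h4
      have h5 : v.v a = (v.v a - 1 - k) + n := by omega
      rw [h5]
      exact dvd_add h4 (dvd_refl _)
  have hn1 : n = 1 := by
    obtain ⟨π, hπ0, hπ1⟩ := v.exists_unif
    obtain ⟨a, ha, b, hb, ha1, hb1, hπab⟩ := hfrac π hπ0
    have h1 : v.v a - v.v b = 1 := by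
      rw [← v.map_div ha1 hb1, ← hπab, hπ1]
    have h2 := (hRint b hb).resolve_left hb1
    have h3 := hmul (v.v a).toNat a ha ha1 (by omega)
    have h4 := hmul (v.v b).toNat b hb hb1 (by omega)
    have h5 : (n : ℤ) ∣ 1 := by
      rw [← h1]
      exact dvd_sub h3 h4
    have h6 := Int.eq_one_of_dvd_one (by omega) h5
    exact_mod_cast h6
  have hk00 : k = 0 := by
    rw [hn1] at hnk
    push_cast at hnk
    omega
  subst hk00
  have ha0v1 : v.v a0 = 1 := by
    rw [ha0v, hn1]
    rfl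
  obtain ⟨hδ0, hδv⟩ := hval a0 ha00 (by omega)
  have hδv0 : v.v ((φ : L) * ω.br s a0) = 0 := by
    rw [hδv, ha0v1]
    norm_num
  set d0 : L := (φ : L) * ω.br s a0 with hd0
  obtain ⟨c0, hc0⟩ := hRres _ (hRδ a0 ha0R)
  have hc00 : c0 ≠ 0 := by
    rintro rfl
    rw [map_zero, sub_zero] at hc0
    have : 0 < v.v d0 := hc0.resolve_left hδ0
    omega
  have hsI : v.Int (s : L) := by
    right
    have := (hres X X_ne_zero).2
    rw [aeval_X] at this
    omega
  -- leading coefficients are constant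
  have hlead : ∀ j : ℕ, ∀ b ∈ R, b ≠ 0 → v.v b = j →
      ∃ c : ℂ, v.Pos (b / a0 ^ j - algebraMap ℂ L c) := by
    intro j
    induction j with
    | zero =>
      intro b hb _ _
      rw [pow_zero, div_one]
      exact hRres b hb
    | succ j ih =>
      intro b hb hb0 hbv
      obtain ⟨h1, h2⟩ := hval b hb0 (by omega)
      obtain ⟨c, hc⟩ := ih _ (hRδ b hb) h1 (by rw [h2, hbv]; push_cast; ring)
      set h : L := b / a0 ^ (j + 1) with hh
      have haj : a0 ^ (j + 1) ≠ 0 := pow_ne_zero _ ha00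
      have haj' : a0 ^ j ≠ 0 := pow_ne_zero _ ha00
      have hh0 : h ≠ 0 := div_ne_zero hb0 haj
      have hhv : v.v h = 0 := by
        rw [hh, v.map_div hb0 haj, v.map_pow ha00, ha0v1, hbv]
        push_cast
        ring
      have hbh : b = a0 ^ (j + 1) * h := by
        rw [hh]
        field_simp
      have hδb : (φ : L) * ω.br s b / a0 ^ j = ((j + 1 : ℕ) : L) * h * d0 +
          a0 * ((φ : L) * ω.br s h) := by
        rw [hbh, ω.mul_right, ω.skew (s : L) (a0 ^ (j + 1)), ω.pow_left, hd0,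
          ω.skew (s : L) a0, Nat.add_sub_cancel]
        field_simp
        ring
      have hsec : v.Pos (a0 * ((φ : L) * ω.br s h)) := by
        by_cases hz : ω.br s h = 0
        · left
          rw [hz, mul_zero, mul_zero]
        · right
          have h3 := hR.w0 v 0 hk s h hsI (Or.inr hhv.ge) hz
          rw [v.map_mul _ _ ha00 (mul_ne_zero hφ0 hz), v.map_mul _ _ hφ0 hz, hφv, ha0v1]
          omega
      have hcoef : algebraMap ℂ L (((j + 1 : ℕ) : ℂ) * c0) ≠ 0 :=
        (map_ne_zero (algebraMap ℂ L)).2 (mul_ne_zero (Nat.cast_ne_zero.2 (by omega)) hc00)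
      refine ⟨c / (((j + 1 : ℕ) : ℂ) * c0), ?_⟩
      -- `(j+1) c0 h ≡ c`
      have hkey : v.Pos (algebraMap ℂ L (((j + 1 : ℕ) : ℂ) * c0) * h - algebraMap ℂ L c) := by
        have e1 : algebraMap ℂ L (((j + 1 : ℕ) : ℂ) * c0) * h - algebraMap ℂ L c =
            ((φ : L) * ω.br s b / a0 ^ j - algebraMap ℂ L c) + -(a0 * ((φ : L) * ω.br s h)) +
            -((d0 - algebraMap ℂ L c0) * (((j + 1 : ℕ) : L) * h)) := by
          rw [hδb, map_mul, map_natCast]
          ring
        rw [e1]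
        refine v.pos_add (v.pos_add hc (v.pos_neg hsec)) (v.pos_neg (v.pos_mul_int hc0 ?_))
        refine v.int_mul ?_ (Or.inr hhv.ge)
        have := v.int_const ((j + 1 : ℕ) : ℂ)
        rwa [map_natCast] at this
      have e2 : h - algebraMap ℂ L (c / (((j + 1 : ℕ) : ℂ) * c0)) =
          (algebraMap ℂ L (((j + 1 : ℕ) : ℂ) * c0) * h - algebraMap ℂ L c) *
            algebraMap ℂ L ((((j + 1 : ℕ) : ℂ) * c0)⁻¹) := by
        rw [map_div₀, map_inv₀]
        field_simp
      rw [e2]
      exact v.pos_mul_int hkey (v.int_const _)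
  -- contradiction with a transcendental residue
  obtain ⟨t, ht⟩ := v.exists_res
  have ht0 : t ≠ 0 := by
    have := (ht X X_ne_zero).1
    rwa [aeval_X] at this
  have htv : v.v t = 0 := by
    have := (ht X X_ne_zero).2
    rwa [aeval_X] at this
  obtain ⟨a, ha, b, hb, ha1, hb1, htab⟩ := hfrac t ht0
  have hab : v.v a = v.v b := by
    have : v.v a - v.v b = 0 := by rw [← v.map_div ha1 hb1, ← htab, htv]
    omega
  have hb2 := (hRint b hb).resolve_left hb1
  obtain ⟨j, hj⟩ : ∃ j : ℕ, v.v b = j := ⟨(v.v b).toNat, by omega⟩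
  obtain ⟨c1, hc1⟩ := hlead j a ha ha1 (by omega)
  obtain ⟨c2, hc2⟩ := hlead j b hb hb1 hj
  have haj : a0 ^ j ≠ 0 := pow_ne_zero _ ha00
  have hbj0 : b / a0 ^ j ≠ 0 := div_ne_zero hb1 haj
  have hbjv : v.v (b / a0 ^ j) = 0 := by
    rw [v.map_div hb1 haj, v.map_pow ha00, ha0v1, hj]
    ring
  have hc20 : c2 ≠ 0 := by
    rintro rfl
    rw [map_zero, sub_zero] at hc2
    have := hc2.resolve_left hbj0
    omega
  have hc20' : algebraMap ℂ L c2 ≠ 0 := (map_ne_zero (algebraMap ℂ L)).2 hc20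
  have hfin : v.Pos (t - algebraMap ℂ L (c1 / c2)) := by
    have e1 : t - algebraMap ℂ L (c1 / c2) =
        ((a / a0 ^ j - algebraMap ℂ L c1) * algebraMap ℂ L c2⁻¹ +
          -((b / a0 ^ j - algebraMap ℂ L c2) * (t * algebraMap ℂ L c2⁻¹))) := by
      rw [htab, map_div₀, map_inv₀]
      field_simp
      ring
    rw [e1]
    refine v.pos_add (v.pos_mul_int hc1 (v.int_const _)) (v.pos_neg (v.pos_mul_int hc2 ?_))
    exact v.int_mul (Or.inr htv.ge) (v.int_const _)
  have hlast := ht (X - C (c1 / c2)) (X_sub_C_ne_zero _)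
  rw [map_sub, aeval_X, aeval_C] at hlast
  have := hfin.resolve_left hlast.1
  omega

end H48

end

end LCY
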