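import Pool.Agent.Helper48.LCY.Asm
import Pool.Agent.Helper48.LCY.Brg
import Pool.Agent.Helper27.LCY.Wire
import Pool.Agent.Helper2.LCY.E10
import Pool.Agent.Helper11.LCY.Fin3
import Pool.Agent.Helper26.LC.CB3
import Pool.Agent.Helper26.LC.T0
import Pool.Agent.Helper26.LC.KMall
import Pool.Agent.Helper36.LCY.NR
import Pool.Agent.Helper36.LCY.Cone
import Pool.Agent.Helper36.LCY.M3
import Pool.Agent.Helper74.LY.PT
import Pool.Agent.Helper84.LCY.Place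
import Pool.Agent.Helper84.LCY.Genus0
import Pool.Agent.Helper93.LCY.DV0
import Pool.Agent.Helper93.LCY.BR7Stmts
import Pool.Agent.Helper81.LCY.SMe
import Pool.Agent.Helper49.LCY.LIM
import Pool.Agent.Helper49.LCY.VH
import Pool.Agent.Helper96.LCY.ADE
import Pool.Agent.Helper99.LCY.CovMain
import Pool.Agent.Helper89.LCY.CovP
import Pool.Agent.Helper53.LCY.Dom5
import Pool.Agent.Helper33.LCY.DV1
import Pool.Agent.Helper74.LY.T0E

/-!
Final assembly for MP_f7e214_ag.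
-/

namespace LCY

namespace Final

theorem br7 : ST_BR7 :=
  br7_of br4 br6 H81.st_SM (st_DV0 H96.st_ADE H49.st_LIM H49.st_VH) H33.st_DV1
    (fun _ Y hY B v _ _ h1 h2 =>
      ((H73.wt_all (br1 _ Y hY).1 (H73.fg_of_hasDim Y hY) B v h2).2.2.2 _ h1))

theorem step1 : ST_STEP1 := H2.st_STEP1 nr Fin3.b1 Fin3.b2k Fin3.c3 Fin3.c4

theorem m3 : ST_M3 := H36.m3 Fin3.b1 Fin3.b2k

theorem covg : ST_COVG :=
  H89.covg Fin3.a6 Fin3.a7 Fin3.a8 Fin3.a9 Fin3.a15 Fin3.a16 Fin3.a17 Fin3.a18 Fin3.ty Fin3.b2k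
    Fin3.b3 Fin3.b4 Fin3.d0 Fin3.c3 Fin3.c4 Fin3.c5 Fin3.pg Fin3.step
    (fun _ _ _ _ ω _ hA _ _ hk => wtProp hA.trdeg hA.fg ω _ hk)

theorem t0pt : ST_T0PT := fun _ _ _ _ _ _ hA _ _ hk hS hZ => LCY74.t0pt Fin3.c3 hA hk hS hZ

theorem main : ST_MAIN :=
  H48.all H48.rules nr genus0 st_CB (H36.cone LCY74.pt place_main) step1
    Fin3.step3 (H26.t0 H26.km_all H53.domf t0pt) (cov_of covg m3)

theorem all (N : ℕ) (Y : Var N) (D : Set (Var N)) (h : LogCY Y D) :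
    DominatedT Y D ∧ Dominated Y D :=
  ⟨wire main br7 N Y D h, wire' main br7 N Y D h⟩

end Final

end LCY
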