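import Pool.Agent.Helper48.LCY.Delta

/-!
Assembly of the main theorem of the abstract layer of MP_f7e214_ag from its blocks.
-/

open Polynomial

namespace LCY

noncomputable section

/-- The rules of the 2-form hold for all finitely generated fields of transcendence degree
two (rows BR8, BR9, B0). -/
def ST_RULES : Prop := ∀ (L : Type) [Field L] [Algebra ℂ L],
  (∃ s : Finset L, IntermediateField.adjoin ℂ (s : Set L) = ⊤) → Algebra.trdeg ℂ L = 2 →
  ∀ ω : Bracket L, Rules ω

namespace H48

/-- The base field of a ruling can be chosen finitely generated. -/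
theorem ruling_fg {L : Type} [Field L] [Algebra ℂ L]
    (hfg : ∃ s : Finset L, IntermediateField.adjoin ℂ (s : Set L) = ⊤)
    (htr : Algebra.trdeg ℂ L = 2) (E : IntermediateField ℂ L) (t : L) (h : IsRuling E t) :
    ∃ E' : IntermediateField ℂ L, IsRuling E' t ∧
      ∃ s : Finset L, IntermediateField.adjoin ℂ (s : Set L) = E' := by
  classical
  obtain ⟨hE, ht⟩ := h
  obtain ⟨S, hS⟩ := hfg
  have htop : IntermediateField.adjoin ℂ ((E : Set L) ∪ {t}) = ⊤ := by
    rw [eq_top_iff]
    intro z _
    have hz : z ∈ IntermediateField.adjoin E {t} := by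
      rw [ht]
      trivial
    have h2 := IntermediateField.restrictScalars_adjoin ℂ E {t}
    have h3 : z ∈ (IntermediateField.adjoin E {t}).restrictScalars ℂ := hz
    rwa [h2] at h3
  -- a finite set of generators inside `E ∪ {t}`
  have hex : ∀ z ∈ S, ∃ T : Finset L, (T : Set L) ⊆ (E : Set L) ∪ {t} ∧
      z ∈ IntermediateField.adjoin ℂ (T : Set L) := by
    intro z _
    have hz : z ∈ IntermediateField.adjoin ℂ ((E : Set L) ∪ {t}) := by
      rw [htop]
      trivial
    obtain ⟨T, hT1, hT2⟩ := IntermediateField.exists_finset_of_mem_adjoin hz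
    exact ⟨T, hT1, hT2⟩
  choose! T hT1 hT2 using hex
  set T0 : Finset L := S.biUnion T with hT0
  have hT0top : IntermediateField.adjoin ℂ (T0 : Set L) = ⊤ := by
    rw [eq_top_iff, ← hS, IntermediateField.adjoin_le_iff]
    intro z hz
    refine IntermediateField.adjoin.mono ℂ _ _ ?_ (hT2 z hz)
    intro y hy
    exact Finset.mem_coe.2 (Finset.mem_biUnion.2 ⟨z, hz, hy⟩)
  set T1 : Finset L := T0.filter fun y => y ∈ E with hT1def
  set E' : IntermediateField ℂ L := IntermediateField.adjoin ℂ (T1 : Set L) with hE'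
  have hE'E : E' ≤ E := by
    rw [hE', IntermediateField.adjoin_le_iff]
    intro y hy
    exact (Finset.mem_filter.1 (Finset.mem_coe.1 hy)).2
  have ht' : IntermediateField.adjoin E' {t} = ⊤ := by
    rw [eq_top_iff]
    intro z _
    have hz : z ∈ IntermediateField.adjoin ℂ (T0 : Set L) := by
      rw [hT0top]
      trivial
    have h2 := IntermediateField.restrictScalars_adjoin ℂ E' {t}
    have h4 : IntermediateField.adjoin ℂ (T0 : Set L) ≤
        (IntermediateField.adjoin E' {t}).restrictScalars ℂ := by
      rw [h2, IntermediateField.adjoin_le_iff]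
      intro y hy
      obtain ⟨w, hw, hyw⟩ := Finset.mem_biUnion.1 (Finset.mem_coe.1 hy)
      rcases hT1 w hw (Finset.mem_coe.2 hyw) with hyE | hyt
      · refine IntermediateField.subset_adjoin ℂ _ (Or.inl ?_)
        exact IntermediateField.subset_adjoin ℂ _
          (Finset.mem_coe.2 (Finset.mem_filter.2 ⟨Finset.mem_coe.1 hy, hyE⟩))
      · exact IntermediateField.subset_adjoin ℂ _ (Or.inr hyt)
    exact h4 hz
  refine ⟨E', ⟨?_, ht'⟩, T1, rfl⟩
  have h1 : Algebra.trdeg ℂ E' ≤ 1 := by
    rw [← hE]
    exact trdeg_le_of_injective (IntermediateField.inclusion hE'E)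
      (IntermediateField.inclusion hE'E).injective
  have h2 : Algebra.trdeg ℂ E' + Algebra.trdeg E' L = 2 := by
    rw [← htr]
    exact trdeg_add_eq ℂ E'
  have h3 : Algebra.trdeg E' L ≤ 1 := by
    have hal : Algebra.IsAlgebraic (Algebra.adjoin E' ({t} : Set L)) L := by
      refine ⟨fun z => ?_⟩
      have hz : z ∈ IntermediateField.adjoin E' {t} := by
        rw [ht']
        trivial
      obtain ⟨p, q, hpq⟩ := (IntermediateField.mem_adjoin_simple_iff E' z).1 hz
      have hmem : ∀ r : E'[X], aeval t r ∈ Algebra.adjoin E' ({t} : Set L) := fun r =>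
        aeval_mem_adjoin_singleton E' t
      rcases eq_or_ne (aeval t q) 0 with hq | hq
      · rw [hpq, hq, div_zero]
        exact isAlgebraic_zero
      · refine ⟨C ⟨aeval t q, hmem q⟩ * X - C ⟨aeval t p, hmem p⟩, ?_, ?_⟩
        · intro h0
          have h1 := congrArg (fun P => P.coeff 1) h0
          simp only [coeff_sub, coeff_C_mul, coeff_X_one, mul_one, coeff_zero] at h1
          rw [coeff_C, if_neg one_ne_zero, sub_zero] at h1
          exact hq (congrArg Subtype.val h1)
        · rw [map_sub, map_mul, aeval_C, aeval_X, aeval_C]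
          change aeval t q * z - aeval t p = 0
          rw [hpq, mul_div_cancel₀ _ hq, sub_self]
    have := Algebra.IsAlgebraic.trdeg_le_cardinalMk E' ({t} : Set L)
    simpa using this
  refine le_antisymm h1 ?_
  by_contra hlt
  push Not at hlt
  have h4 : Algebra.trdeg ℂ E' = 0 := Cardinal.lt_one_iff.1 hlt
  rw [h4, zero_add] at h2
  rw [h2] at h3
  exact absurd h3 (by norm_num)

/-- An admissible pair with a ruling has a family or is rational. -/
theorem irr (hRU : ST_RULES) (hNR : ST_NR) (hG : ST_GENUS0) (hCB : ST_CB)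
    (L : Type) [Field L] [Algebra ℂ L] (N : ℕ) (ω : Bracket L) (x : Fin (N + 1) → L)
    (hA : Adm ω x) (hr : ∃ (E : IntermediateField ℂ L) (t : L), IsRuling E t) :
    (∃ a b : L, IntermediateField.adjoin ℂ {a, b} = ⊤) ∨ Fam ω x := by
  obtain ⟨E0, t, h0⟩ := hr
  obtain ⟨E, hE, S, hS⟩ := ruling_fg hA.fg hA.trdeg E0 t h0
  have hR := hRU L hA.fg hA.trdeg ω
  classical
  have hfgE : ∃ s : Finset E, IntermediateField.adjoin ℂ (s : Set E) = ⊤ := by
    have h1 : E.FG := ⟨S, hS⟩
    have h2 := IntermediateField.essFiniteType_iff.2 h1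
    exact IntermediateField.fg_top_iff.2 h2
  rcases hG E hfgE hE.1 with ⟨s, hs⟩ | ⟨φ, s, hd⟩
  · -- rational base: `L = ℂ(s, t)`
    refine Or.inl ⟨(s : L), t, ?_⟩
    rw [eq_top_iff]
    intro z _
    have hz : z ∈ IntermediateField.adjoin E {t} := by
      rw [hE.2]
      trivial
    have h2 := IntermediateField.restrictScalars_adjoin ℂ E {t}
    have hEs : E ≤ IntermediateField.adjoin ℂ {(s : L)} := by
      intro y hy
      have hy2 : (⟨y, hy⟩ : E) ∈ IntermediateField.adjoin ℂ {s} := by
        rw [hs]
        trivial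
      have h3 : E.val ⟨y, hy⟩ ∈ (IntermediateField.adjoin ℂ {s}).map E.val :=
        ⟨_, hy2, rfl⟩
      rw [IntermediateField.adjoin_map, Set.image_singleton] at h3
      exact h3
    have h4 : (IntermediateField.adjoin E {t}).restrictScalars ℂ ≤
        IntermediateField.adjoin ℂ {(s : L), t} := by
      rw [h2, IntermediateField.adjoin_le_iff]
      rintro y (hy | hy)
      · exact IntermediateField.adjoin.mono ℂ _ _ (by simp) (hEs hy)
      · exact IntermediateField.subset_adjoin ℂ _ (by
          rw [Set.mem_singleton_iff.1 hy]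
          simp)
    exact h4 hz
  · refine Or.inr (hCB L N ω x hA E t hE ?_)
    intro v k hv hk
    have h1 := hA.h1 v k hk
    by_cases hk0 : 0 ≤ k
    · right
      have hc := delta hNR ω hR x hA E hE.1 φ s hd v k hv hk hk0
      have h2 := hA.h2 v k hk hc
      exact ⟨by omega, hc⟩
    · left
      omega

/-- The main theorem from the blocks. -/
theorem main (hRU : ST_RULES) (hNR : ST_NR) (hG : ST_GENUS0) (hCB : ST_CB) (hRat : ST_RAT) :
    ST_MAIN := by
  intro L _ _ N ω x hA hr
  rcases irr hRU hNR hG hCB L N ω x hA hr with h | h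
  · exact hRat L N ω x hA h
  · exact h

end H48

end

end LCY
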