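import Mathlib

/-!
The affine surfaces `y ^ 2 = x ^ 3 + A x z ^ 4 + B z ^ 6 + z ^ e`: the ideal is prime, the
dimension is two (row T0FAM for MP_f7e214_ag).
-/

open MvPolynomial

namespace LCY

noncomputable section

namespace H48

/-- The equation of the surface; `z = X 0`, `x = X 1`, `y = X 2`. -/
def GG (e : ℕ) (A B : ℂ) : MvPolynomial (Fin 3) ℂ :=
  X 2 ^ 2 - (X 1 ^ 3 + C A * X 1 * X 0 ^ 4 + C B * X 0 ^ 6 + X 0 ^ e)

/-- The right hand side as a polynomial in `x = X 0`, `z = X 1`. -/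
def hh (e : ℕ) (A B : ℂ) : MvPolynomial (Fin 2) ℂ :=
  X 0 ^ 3 + C A * X 0 * X 1 ^ 4 + C B * X 1 ^ 6 + X 1 ^ e

/-- The variable `y` is taken out. -/
def sg : MvPolynomial (Fin 3) ℂ ≃ₐ[ℂ] Polynomial (MvPolynomial (Fin 2) ℂ) :=
  (MvPolynomial.renameEquiv ℂ (Equiv.swap (0 : Fin 3) 2)).trans (MvPolynomial.finSuccEquiv ℂ 2)

theorem sg_0 : sg (X 0) = Polynomial.C (X 1) := by
  simp only [sg, AlgEquiv.trans_apply, renameEquiv_apply, rename_X, Equiv.swap_apply_left]
  exact finSuccEquiv_X_succ (j := 1)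

theorem sg_1 : sg (X 1) = Polynomial.C (X 0) := by
  simp only [sg, AlgEquiv.trans_apply, renameEquiv_apply, rename_X]
  rw [Equiv.swap_apply_of_ne_of_ne (by decide) (by decide)]
  exact finSuccEquiv_X_succ (j := 0)

theorem sg_2 : sg (X 2) = Polynomial.X := by
  simp only [sg, AlgEquiv.trans_apply, renameEquiv_apply, rename_X, Equiv.swap_apply_right]
  exact finSuccEquiv_X_zero

theorem sg_C (c : ℂ) : sg (C c) = Polynomial.C (C c) := by
  have h1 : (C c : MvPolynomial (Fin 3) ℂ) = algebraMap ℂ _ c := rfl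
  rw [h1, AlgEquiv.commutes]
  rfl

theorem sg_GG (e : ℕ) (A B : ℂ) :
    sg (GG e A B) = Polynomial.X ^ 2 - Polynomial.C (hh e A B) := by
  simp only [GG, hh, map_sub, map_add, map_mul, map_pow, sg_0, sg_1, sg_2, sg_C]

theorem hh_ne_sq (e : ℕ) (A B : ℂ) (r : MvPolynomial (Fin 2) ℂ) : r ^ 2 ≠ hh e A B := by
  intro h
  have h1 := congrArg (aeval (![Polynomial.X, 0] : Fin 2 → Polynomial ℂ)) h
  rw [map_pow] at h1
  have h2 : aeval (![Polynomial.X, 0] : Fin 2 → Polynomial ℂ) (hh e A B) =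
      Polynomial.X ^ 3 + Polynomial.C ((0 : ℂ) ^ e) := by
    simp only [hh, map_add, map_mul, map_pow, aeval_X, Matrix.cons_val_zero, Matrix.cons_val_one,
      Matrix.cons_val_fin_one, map_zero]
    simp
  rw [h2] at h1
  have h3 : (Polynomial.X ^ 3 + Polynomial.C ((0 : ℂ) ^ e)).natDegree = 3 :=
    Polynomial.natDegree_X_pow_add_C
  rw [← h1, Polynomial.natDegree_pow] at h3
  omega

theorem monic_GG (e : ℕ) (A B : ℂ) :
    (Polynomial.X ^ 2 - Polynomial.C (hh e A B) : Polynomial (MvPolynomial (Fin 2) ℂ)).Monic :=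
  Polynomial.monic_X_pow_sub_C _ two_ne_zero

theorem irred_GG (e : ℕ) (A B : ℂ) : Irreducible (GG e A B) := by
  rw [← MulEquiv.irreducible_iff (sg : MvPolynomial (Fin 3) ℂ ≃ₐ[ℂ] _), sg_GG]
  have hd : (Polynomial.X ^ 2 - Polynomial.C (hh e A B) :
      Polynomial (MvPolynomial (Fin 2) ℂ)).natDegree = 2 := Polynomial.natDegree_X_pow_sub_C
  rw [(monic_GG e A B).irreducible_iff_roots_eq_zero_of_degree_le_three (by omega) (by omega)]
  rw [Multiset.eq_zero_iff_forall_notMem]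
  intro r hr
  rw [Polynomial.mem_roots (monic_GG e A B).ne_zero, Polynomial.IsRoot.def] at hr
  simp only [Polynomial.eval_sub, Polynomial.eval_pow, Polynomial.eval_X,
    Polynomial.eval_C] at hr
  exact hh_ne_sq e A B r (sub_eq_zero.1 hr)

theorem prime_GG (e : ℕ) (A B : ℂ) : (Ideal.span {GG e A B}).IsPrime :=
  (Ideal.span_singleton_prime (irred_GG e A B).ne_zero).2 (irred_GG e A B).prime

theorem trdeg_GG (e : ℕ) (A B : ℂ) :
    Algebra.trdeg ℂ (MvPolynomial (Fin 3) ℂ ⧸ Ideal.span {GG e A B}) = 2 := by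
  set p : Polynomial (MvPolynomial (Fin 2) ℂ) := Polynomial.X ^ 2 - Polynomial.C (hh e A B)
    with hp
  have hm : p.Monic := monic_GG e A B
  have hpr : (Ideal.span {p}).IsPrime := by
    refine (Ideal.span_singleton_prime hm.ne_zero).2 ?_
    rw [hp, ← sg_GG, MulEquiv.prime_iff (sg : MvPolynomial (Fin 3) ℂ ≃ₐ[ℂ] _)]
    exact (irred_GG e A B).prime
  have e1 : (MvPolynomial (Fin 3) ℂ ⧸ Ideal.span {GG e A B}) ≃ₐ[ℂ] AdjoinRoot p :=
    Ideal.quotientEquivAlg _ _ sg (by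
      rw [Ideal.map_span, Set.image_singleton]
      exact congrArg (fun q => Ideal.span {q}) (sg_GG e A B).symm)
  rw [e1.trdeg_eq]
  have : IsDomain (AdjoinRoot p) := (Ideal.Quotient.isDomain_iff_prime _).2 hpr
  have : Module.Finite (MvPolynomial (Fin 2) ℂ) (AdjoinRoot p) := hm.finite_adjoinRoot
  have : Algebra.IsIntegral (MvPolynomial (Fin 2) ℂ) (AdjoinRoot p) := inferInstance
  have hinj : Function.Injective (algebraMap (MvPolynomial (Fin 2) ℂ) (AdjoinRoot p)) :=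
    AdjoinRoot.of.injective_of_degree_ne_zero (by
      rw [Polynomial.degree_eq_natDegree hm.ne_zero, hp, Polynomial.natDegree_X_pow_sub_C]
      norm_num)
  have : FaithfulSMul (MvPolynomial (Fin 2) ℂ) (AdjoinRoot p) :=
    (faithfulSMul_iff_algebraMap_injective _ _).2 hinj
  have h1 := trdeg_add_eq ℂ (MvPolynomial (Fin 2) ℂ) (A := AdjoinRoot p)
  rw [trdeg_eq_zero (R := MvPolynomial (Fin 2) ℂ), add_zero, MvPolynomial.trdeg_of_isDomain] at h1
  rw [← h1]
  simp

end H48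

end

end LCY
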