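import Pool.Agent.Helper48.LCY.TFa
import Pool.Agent.Helper51.LCY.P2

/-!
Points of the surfaces `y ^ 2 = x ^ 3 + A x z ^ 4 + B z ^ 6 + z ^ e` and the functions
`x / z ^ 2`, `y / z ^ 3` (row T0FAM for MP_f7e214_ag).
-/

open Polynomial

namespace LCY

noncomputable section

namespace H48

/-- The Weierstrass polynomial. -/
def wf (A B : ℂ) : ℂ[X][X] := X ^ 2 - C (X ^ 3 + C A * X + C B)

theorem ev_wf {M : Type} [Field M] [Algebra ℂ M] (x y : M) (A B : ℂ) :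
    ev x y (wf A B) = y ^ 2 - (x ^ 3 + algebraMap ℂ M A * x + algebraMap ℂ M B) := by
  simp only [wf, map_sub, map_pow, ev_X, ev_C, map_add, map_mul, aeval_X, aeval_C]

theorem wf_ne (A B : ℂ) : wf A B ≠ 0 := (monic_X_pow_sub_C _ two_ne_zero).ne_zero

theorem eval_GG (e : ℕ) (A B : ℂ) (P : Fin 3 → ℂ) : MvPolynomial.eval P (GG e A B) =
    P 2 ^ 2 - (P 1 ^ 3 + A * P 1 * P 0 ^ 4 + B * P 0 ^ 6 + P 0 ^ e) := by
  simp [GG]

theorem aeval_GG {M : Type} [CommRing M] [Algebra ℂ M] (e : ℕ) (A B : ℂ) (P : Fin 3 → M) :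
    MvPolynomial.aeval P (GG e A B) =
    P 2 ^ 2 - (P 1 ^ 3 + algebraMap ℂ M A * P 1 * P 0 ^ 4 + algebraMap ℂ M B * P 0 ^ 6
      + P 0 ^ e) := by
  simp only [GG, map_sub, map_add, map_mul, map_pow, MvPolynomial.aeval_X,
    MvPolynomial.algHom_C]

/-- Points of the surface over the points of the plane outside the cubic. -/
theorem exists_pt_GG {e d : ℕ} (hd : 1 ≤ d) (hed : e + d = 6) (A B x0 y0 : ℂ)
    (h : y0 ^ 2 - (x0 ^ 3 + A * x0 + B) ≠ 0) :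
    ∃ z0 : ℂ, z0 ≠ 0 ∧ MvPolynomial.eval ![z0, x0 * z0 ^ 2, y0 * z0 ^ 3] (GG e A B) = 0 := by
  set t0 := y0 ^ 2 - (x0 ^ 3 + A * x0 + B) with ht
  obtain ⟨z0, hz⟩ := IsAlgClosed.exists_pow_nat_eq t0⁻¹ (n := d) hd
  have hz0 : z0 ≠ 0 := by
    rintro rfl
    rw [zero_pow (by omega)] at hz
    exact inv_ne_zero h hz.symm
  refine ⟨z0, hz0, ?_⟩
  rw [eval_GG]
  simp only [Matrix.cons_val_zero, Matrix.cons_val_one, Matrix.cons_val]
  have h1 : z0 ^ d * t0 = 1 := by rw [hz, inv_mul_cancel₀ h]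
  have h2 : z0 ^ 6 = z0 ^ e * z0 ^ d := by rw [← pow_add, hed]
  have h3 : (y0 * z0 ^ 3) ^ 2 - ((x0 * z0 ^ 2) ^ 3 + A * (x0 * z0 ^ 2) * z0 ^ 4 + B * z0 ^ 6
      + z0 ^ e) = z0 ^ 6 * t0 - z0 ^ e := by
    rw [ht]
    ring
  rw [h3, h2, mul_assoc, h1]
  ring

theorem ev_all_zero {F : ℂ[X][X]} (h : ∀ x0 y0 : ℂ, ev x0 y0 F = 0) : F = 0 := by
  refine Polynomial.ext fun j => ?_
  rw [coeff_zero]
  apply Polynomial.funext
  intro x0
  rw [eval_zero]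
  have h1 : F.map (evalRingHom x0) = 0 := by
    apply Polynomial.funext
    intro y0
    rw [eval_zero, eval_map, ← h x0 y0, ev_apply]
    congr 1
  have h2 := congrArg (fun p => p.coeff j) h1
  simpa using h2

/-- The weighted homogenisation. -/
def Hm (F : ℂ[X][X]) (n : ℕ) : MvPolynomial (Fin 3) ℂ :=
  ∑ e ∈ bs F, MvPolynomial.C (cf F e) * MvPolynomial.X 1 ^ e.1 * MvPolynomial.X 2 ^ e.2 *
    MvPolynomial.X 0 ^ (n - (2 * e.1 + 3 * e.2))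

theorem exists_bd (F : ℂ[X][X]) : ∃ n : ℕ, ∀ e ∈ bs F, 2 * e.1 + 3 * e.2 ≤ n :=
  ⟨(bs F).sup fun e => 2 * e.1 + 3 * e.2, fun e he =>
    Finset.le_sup (f := fun e : ℕ × ℕ => 2 * e.1 + 3 * e.2) he⟩

theorem aeval_Hm {M : Type} [Field M] [Algebra ℂ M] (P : Fin 3 → M) (h0 : P 0 ≠ 0)
    {F : ℂ[X][X]} {n : ℕ} (hn : ∀ e ∈ bs F, 2 * e.1 + 3 * e.2 ≤ n) :
    MvPolynomial.aeval P (Hm F n) = P 0 ^ n * ev (P 1 / P 0 ^ 2) (P 2 / P 0 ^ 3) F := by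
  rw [Hm, map_sum, ev_eq_sum, Finset.mul_sum]
  refine Finset.sum_congr rfl fun e he => ?_
  have h1 := hn e he
  simp only [map_mul, map_pow, MvPolynomial.aeval_X, MvPolynomial.algHom_C]
  have h2 : P 0 ^ n = P 0 ^ (n - (2 * e.1 + 3 * e.2)) * (P 0 ^ 2) ^ e.1 * (P 0 ^ 3) ^ e.2 := by
    rw [← pow_mul, ← pow_mul, ← pow_add, ← pow_add]
    congr 1
    omega
  rw [h2, div_pow, div_pow]
  field_simp

/-- The functions `x / z ^ 2`, `y / z ^ 3` are algebraically independent. -/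
theorem inj_GG {M : Type} [Field M] [Algebra ℂ M] {e d : ℕ} (hd : 1 ≤ d) (hed : e + d = 6)
    {A B : ℂ} {P : Fin 3 → M} (hker : ∀ h, MvPolynomial.aeval P h = 0 → GG e A B ∣ h)
    (h0 : P 0 ≠ 0) {F : ℂ[X][X]} (hF : ev (P 1 / P 0 ^ 2) (P 2 / P 0 ^ 3) F = 0) : F = 0 := by
  obtain ⟨n, hn⟩ := exists_bd F
  have h1 := aeval_Hm P h0 hn
  rw [hF, mul_zero] at h1
  have h2 := hker _ h1
  have h3 : F * wf A B = 0 := by
    apply ev_all_zero
    intro x0 y0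
    rw [map_mul]
    by_cases h4 : ev x0 y0 (wf A B) = 0
    · rw [h4, mul_zero]
    · have h5 : ev x0 y0 F = 0 := by
        rw [ev_wf] at h4
        obtain ⟨z0, hz0, hz⟩ := exists_pt_GG hd hed A B x0 y0 h4
        obtain ⟨q, hq⟩ := h2
        have h6 := congrArg (MvPolynomial.eval ![z0, x0 * z0 ^ 2, y0 * z0 ^ 3]) hq
        rw [map_mul, hz, zero_mul] at h6
        have h7 := aeval_Hm (M := ℂ) ![z0, x0 * z0 ^ 2, y0 * z0 ^ 3] hz0 hn
        have h8 : MvPolynomial.aeval ![z0, x0 * z0 ^ 2, y0 * z0 ^ 3] (Hm F n) =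
            MvPolynomial.eval ![z0, x0 * z0 ^ 2, y0 * z0 ^ 3] (Hm F n) := rfl
        rw [h8, h6] at h7
        simp only [Matrix.cons_val_zero, Matrix.cons_val_one, Matrix.cons_val] at h7
        rw [mul_div_cancel_right₀ _ (pow_ne_zero _ hz0),
          mul_div_cancel_right₀ _ (pow_ne_zero _ hz0)] at h7
        exact (mul_eq_zero.1 h7.symm).resolve_left (pow_ne_zero _ hz0)
      rw [h5, zero_mul]
  exact (mul_eq_zero.1 h3).resolve_right (wf_ne A B)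

/-- None of the coordinates vanishes on the surface. -/
theorem not_dvd_X {e d : ℕ} (hd : 1 ≤ d) (hed : e + d = 6) (A B : ℂ) (j : Fin 3) :
    ¬ GG e A B ∣ MvPolynomial.X j := by
  rintro ⟨q, hq⟩
  -- a point with nonzero coordinates
  obtain ⟨y0, hy0, hy1⟩ : ∃ y0 : ℂ, y0 ≠ 0 ∧ y0 ^ 2 - (1 ^ 3 + A * 1 + B) ≠ 0 := by
    by_cases h1 : (1 : ℂ) ^ 2 - (1 ^ 3 + A * 1 + B) = 0
    · refine ⟨2, two_ne_zero, fun h2 => ?_⟩
      have h3 : (3 : ℂ) = 0 := by linear_combination h2 - h1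
      norm_num at h3
    · exact ⟨1, one_ne_zero, h1⟩
  obtain ⟨z0, hz0, hz⟩ := exists_pt_GG hd hed A B 1 y0 hy1
  have h1 := congrArg (MvPolynomial.eval ![z0, 1 * z0 ^ 2, y0 * z0 ^ 3]) hq
  rw [map_mul, hz, zero_mul, MvPolynomial.eval_X] at h1
  fin_cases j
  · exact hz0 h1
  · exact one_ne_zero ((mul_eq_zero.1 h1).resolve_right (pow_ne_zero _ hz0))
  · exact hy0 ((mul_eq_zero.1 h1).resolve_right (pow_ne_zero _ hz0))

end H48

end

end LCY
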