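import Pool.Agent.Helper48.LCY.TFb
import Pool.Agent.Helper36.LCY.ValAt
import Pool.Agent.Helper98.LCY.Abh

/-!
Laurent polynomials over a field as rational functions; the embedding of the function field given
by a family on the surface `y ^ 2 = x ^ 3 + A x z ^ 4 + B z ^ 6 + z ^ e` (row T0FAM for
MP_f7e214_ag).
-/

open Polynomial

namespace LCY

noncomputable section

namespace H48

section Gam

variable {K : Type} [Field K] [Algebra ℂ K]

/-- Laurent polynomials as rational functions. -/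
def gam0 (K : Type) [Field K] : LaurentPolynomial K →+* RatFunc K :=
  LaurentPolynomial.eval₂ (algebraMap K (RatFunc K)) (Units.mk0 RatFunc.X RatFunc.X_ne_zero)

theorem gam0_poly (p : K[X]) : gam0 K (toLaurent p) = algebraMap K[X] (RatFunc K) p := by
  have h1 : gam0 K (toLaurent p) = Polynomial.eval₂ (algebraMap K (RatFunc K)) RatFunc.X p :=
    LaurentPolynomial.eval₂_toLaurent _ _ p
  rw [h1]
  have h2 : Polynomial.eval₂ (algebraMap K (RatFunc K)) RatFunc.X p =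
      aeval (RatFunc.X : RatFunc K) p := rfl
  rw [h2, ← RatFunc.algebraMap_X]
  have h3 := aeval_algebraMap_apply (A := K[X]) (B := RatFunc K) (X : K[X]) p
  rw [h3, aeval_X_left_apply]

theorem gam0_exists (q : LaurentPolynomial K) : ∃ (n : ℕ) (p : K[X]),
    toLaurent p = q * LaurentPolynomial.T n ∧
    gam0 K q = algebraMap K[X] (RatFunc K) p / algebraMap K[X] (RatFunc K) (X ^ n) := by
  obtain ⟨n, p, hp⟩ := LaurentPolynomial.exists_T_pow q
  refine ⟨n, p, hp, ?_⟩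
  have h1 : (algebraMap K[X] (RatFunc K)) (X ^ n) ≠ 0 := by
    rw [map_pow, RatFunc.algebraMap_X]
    exact pow_ne_zero _ RatFunc.X_ne_zero
  rw [eq_div_iff h1, ← gam0_poly p, hp, map_mul, ← gam0_poly, Polynomial.toLaurent_X_pow]

theorem gam0_inj {q : LaurentPolynomial K} (h : gam0 K q = 0) : q = 0 := by
  obtain ⟨n, p, h1, h2⟩ := gam0_exists q
  rw [h] at h2
  have h3 : (algebraMap K[X] (RatFunc K)) (X ^ n) ≠ 0 := by
    rw [map_pow, RatFunc.algebraMap_X]
    exact pow_ne_zero _ RatFunc.X_ne_zero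
  have h4 : algebraMap K[X] (RatFunc K) p = 0 := by
    rw [eq_div_iff h3, zero_mul] at h2
    exact h2.symm
  have h5 : p = 0 := IsFractionRing.injective K[X] (RatFunc K) (by rw [h4, map_zero])
  rw [h5, map_zero] at h1
  have h6 := congrArg (fun r => r * LaurentPolynomial.T (-(n : ℤ))) h1
  simp only [zero_mul] at h6
  rw [mul_assoc, ← LaurentPolynomial.T_add, add_neg_cancel, LaurentPolynomial.T_zero,
    mul_one] at h6
  exact h6.symm

theorem gam0_const (c : ℂ) : gam0 K (algebraMap ℂ (LaurentPolynomial K) c) =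
    algebraMap ℂ (RatFunc K) c := by
  have h1 : algebraMap ℂ (LaurentPolynomial K) c = LaurentPolynomial.C (algebraMap ℂ K c) := rfl
  rw [h1]
  have h2 : gam0 K (LaurentPolynomial.C (algebraMap ℂ K c)) =
      algebraMap K (RatFunc K) (algebraMap ℂ K c) := LaurentPolynomial.eval₂_C _ _ _
  rw [h2, ← IsScalarTower.algebraMap_apply]

/-- Laurent polynomials as rational functions, complex algebras. -/
def gam (K : Type) [Field K] [Algebra ℂ K] : LaurentPolynomial K →ₐ[ℂ] RatFunc K :=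
  { gam0 K with commutes' := gam0_const }

theorem gam_inj {q : LaurentPolynomial K} (h : gam K q = 0) : q = 0 := gam0_inj h

theorem gam_reg (q : LaurentPolynomial K) {P : K[X]} (hP : Irreducible P)
    (hX : ¬ P ∣ Polynomial.X) : RegAtT P (gam K q) := by
  obtain ⟨n, p, -, h2⟩ := gam0_exists q
  exact ⟨p, X ^ n, fun h => hX (hP.prime.dvd_of_dvd_pow h), h2⟩

theorem gam_ord (q : LaurentPolynomial K) {P : K[X]} (hP : Irreducible P)
    (hX : ¬ P ∣ Polynomial.X) (h : gam K q ≠ 0) : 0 ≤ ordP P hP (gam K q) :=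
  (regAtT_iff h).1 (gam_reg q hP hX)

end Gam

section Fam

variable {L : Type} [Field L] [Algebra ℂ L]

/-- The data of a family on the surface. -/
structure TF (e d : ℕ) (A B : ℂ) (Q : Coord L) (K : Type) [Field K] [Algebra ℂ K]
    (g : Fin 3 → LaurentPolynomial K) (i : L →ₐ[ℂ] RatFunc K) : Prop where
  hd : 1 ≤ d
  hed : e + d = 6
  ne : ∀ j, gam K (g j) ≠ 0
  rel : gam K (g 2) ^ 2 = gam K (g 1) ^ 3 + algebraMap ℂ _ A * gam K (g 1) * gam K (g 0) ^ 4 +
    algebraMap ℂ _ B * gam K (g 0) ^ 6 + gam K (g 0) ^ e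
  bez : ∃ α β : LaurentPolynomial K, α * g 0 + β * (g 1 * g 2) = 1
  ix : i Q.x = gam K (g 1) / gam K (g 0) ^ 2
  iy : i Q.y = gam K (g 2) / gam K (g 0) ^ 3

theorem exists_TF {e d : ℕ} (hd : 1 ≤ d) (hed : e + d = 6) (A B : ℂ) (Q : Coord L)
    {K : Type} [Field K] [Algebra ℂ K] {g : Fin 3 → LaurentPolynomial K}
    (hker : ∀ h : MvPolynomial (Fin 3) ℂ, MvPolynomial.aeval g h = 0 ↔ GG e A B ∣ h)
    (hb : ∃ α : Fin 2 → LaurentPolynomial K, ∑ i, α i * MvPolynomial.aeval g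
      ((![MvPolynomial.X 0, MvPolynomial.X 1 * MvPolynomial.X 2] :
        Fin 2 → MvPolynomial (Fin 3) ℂ) i) = 1) :
    ∃ i : L →ₐ[ℂ] RatFunc K, TF e d A B Q K g i := by
  have hcomp : ∀ h : MvPolynomial (Fin 3) ℂ,
      MvPolynomial.aeval (fun j => gam K (g j)) h = gam K (MvPolynomial.aeval g h) := by
    intro h
    rw [← MvPolynomial.comp_aeval_apply]
  have hne : ∀ j, gam K (g j) ≠ 0 := by
    intro j hj
    have h1 := gam_inj hj
    have h2 : MvPolynomial.aeval g (MvPolynomial.X j : MvPolynomial (Fin 3) ℂ) = 0 := by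
      rw [MvPolynomial.aeval_X, h1]
    exact not_dvd_X hd hed A B j ((hker _).1 h2)
  obtain ⟨i, h1, h2, -⟩ := H36.exists_coord_hom Q (gam K (g 1) / gam K (g 0) ^ 2)
    (gam K (g 2) / gam K (g 0) ^ 3) (fun F hF =>
      inj_GG (P := fun j => gam K (g j)) hd hed (fun h hh => by
        rw [hcomp] at hh
        exact (hker h).1 (gam_inj hh)) (hne 0) hF)
  refine ⟨i, hd, hed, hne, ?_, ?_, h1, h2⟩
  · have h3 := hcomp (GG e A B)
    rw [(hker _).2 (dvd_refl _), map_zero, aeval_GG] at h3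
    exact sub_eq_zero.1 h3
  · obtain ⟨α, hα⟩ := hb
    refine ⟨α 0, α 1, ?_⟩
    rw [Fin.sum_univ_two] at hα
    simpa [map_mul, MvPolynomial.aeval_X] using hα

variable {e d : ℕ} {A B : ℂ} {Q : Coord L} {K : Type} [Field K] [Algebra ℂ K]
  {g : Fin 3 → LaurentPolynomial K} {i : L →ₐ[ℂ] RatFunc K}

theorem TF.wf (h : TF e d A B Q K g i) : i (ev Q.x Q.y (wf A B)) = (gam K (g 0) ^ d)⁻¹ := by
  have h0 := h.ne 0
  have h1 : i (ev Q.x Q.y (H48.wf A B)) = (i Q.y) ^ 2 - ((i Q.x) ^ 3 +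
      algebraMap ℂ _ A * i Q.x + algebraMap ℂ _ B) := by
    rw [ev_wf, map_sub, map_add, map_add, map_mul, map_pow, map_pow, AlgHom.commutes,
      AlgHom.commutes]
  rw [h1, h.ix, h.iy]
  have h2 : gam K (g 0) ^ 6 = gam K (g 0) ^ e * gam K (g 0) ^ d := by rw [← pow_add, h.hed]
  have h3 : (gam K (g 2) / gam K (g 0) ^ 3) ^ 2 - ((gam K (g 1) / gam K (g 0) ^ 2) ^ 3 +
      algebraMap ℂ _ A * (gam K (g 1) / gam K (g 0) ^ 2) + algebraMap ℂ _ B) =
      (gam K (g 2) ^ 2 - (gam K (g 1) ^ 3 + algebraMap ℂ _ A * gam K (g 1) * gam K (g 0) ^ 4 +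
        algebraMap ℂ _ B * gam K (g 0) ^ 6)) / gam K (g 0) ^ 6 := by
    field_simp
  rw [h3, h.rel, h2]
  field_simp
  ring

/-- The ring of the functions that are regular along the family. -/
def TR (K : Type) [Field K] [Algebra ℂ K] (i : L →ₐ[ℂ] RatFunc K) : Subalgebra ℂ L :=
  (gam K).range.comap i

theorem TR_reg {r : L} (hr : r ∈ TR K i) {P : K[X]} (hP : Irreducible P)
    (hX : ¬ P ∣ Polynomial.X) : RegAtT P (i r) := by
  obtain ⟨q, hq⟩ := hr
  have h1 : i r = gam K q := hq.symm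
  rw [h1]
  exact gam_reg q hP hX

theorem TF.inv_mem (h : TF e d A B Q K g i) : (ev Q.x Q.y (H48.wf A B))⁻¹ ∈ TR K i := by
  refine ⟨g 0 ^ d, ?_⟩
  show gam K (g 0 ^ d) = i (ev Q.x Q.y (H48.wf A B))⁻¹
  rw [map_inv₀, h.wf, inv_inv, map_pow]

theorem TF.x_mem (h : TF e d A B Q K g i) :
    Q.x * (ev Q.x Q.y (H48.wf A B))⁻¹ ^ 2 ∈ TR K i := by
  have h0 := h.ne 0
  refine ⟨g 1 * g 0 ^ (2 * d - 2), ?_⟩
  show gam K (g 1 * g 0 ^ (2 * d - 2)) = i (Q.x * (ev Q.x Q.y (H48.wf A B))⁻¹ ^ 2)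
  rw [map_mul, map_mul, map_pow, map_pow, map_inv₀, h.wf, inv_inv, h.ix, ← pow_mul]
  have h1 : gam K (g 0) ^ (d * 2) = gam K (g 0) ^ 2 * gam K (g 0) ^ (2 * d - 2) := by
    rw [← pow_add]
    congr 1
    have := h.hd
    omega
  rw [h1]
  field_simp

theorem TF.y_mem (h : TF e d A B Q K g i) :
    Q.y * (ev Q.x Q.y (H48.wf A B))⁻¹ ^ 3 ∈ TR K i := by
  have h0 := h.ne 0
  refine ⟨g 2 * g 0 ^ (3 * d - 3), ?_⟩
  show gam K (g 2 * g 0 ^ (3 * d - 3)) = i (Q.y * (ev Q.x Q.y (H48.wf A B))⁻¹ ^ 3)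
  rw [map_mul, map_mul, map_pow, map_pow, map_inv₀, h.wf, inv_inv, h.iy, ← pow_mul]
  have h1 : gam K (g 0) ^ (d * 3) = gam K (g 0) ^ 3 * gam K (g 0) ^ (3 * d - 3) := by
    rw [← pow_add]
    congr 1
    have := h.hd
    omega
  rw [h1]
  field_simp

theorem TF.xd_mem (h : TF e d A B Q K g i) :
    i (Q.x ^ d * (ev Q.x Q.y (H48.wf A B))⁻¹ ^ 2) = gam K (g 1) ^ d := by
  have h0 := h.ne 0
  rw [map_mul, map_pow, map_pow, map_inv₀, h.wf, inv_inv, h.ix, div_pow, ← pow_mul, ← pow_mul,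
    mul_comm 2 d]
  field_simp

theorem TF.yd_mem (h : TF e d A B Q K g i) :
    i (Q.y ^ d * (ev Q.x Q.y (H48.wf A B))⁻¹ ^ 3) = gam K (g 2) ^ d := by
  have h0 := h.ne 0
  rw [map_mul, map_pow, map_pow, map_inv₀, h.wf, inv_inv, h.iy, div_pow, ← pow_mul, ← pow_mul,
    mul_comm 3 d]
  field_simp

end Fam

end H48

end

end LCY
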