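import Pool.Agent.Helper48.LCY.TFc
import Pool.Agent.Helper51.LCY.P3
import Pool.Agent.Helper73.LCY.DerE
import Pool.Agent.Helper99.LCY.Ram

/-!
Places along a family on the surface `y ^ 2 = x ^ 3 + A x z ^ 4 + B z ^ 6 + z ^ e`: the two cases,
weights, residues (row T0FAM for MP_f7e214_ag).
-/

open Polynomial

namespace LCY

noncomputable section

namespace H48

section Res

variable {L : Type} [Field L] [Algebra ℂ L]

/-- `z` has residue `c` at `v`. -/
def Rs (v : DVal L) (z : L) (c : ℂ) : Prop := v.Pos (z - algebraMap ℂ L c)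

theorem rs_int {v : DVal L} {z : L} {c : ℂ} (h : Rs v z c) : v.Int z := by
  have h1 := v.int_add h.int (v.int_const c)
  rwa [sub_add_cancel] at h1

theorem rs_mul {v : DVal L} {a b : L} {c c' : ℂ} (ha : Rs v a c) (hb : Rs v b c') :
    Rs v (a * b) (c * c') := by
  have h1 : a * b - algebraMap ℂ L (c * c') = (a - algebraMap ℂ L c) * b +
      (b - algebraMap ℂ L c') * algebraMap ℂ L c := by
    rw [map_mul]
    ring
  unfold Rs
  rw [h1]
  exact v.pos_add (v.pos_mul_int ha (rs_int hb)) (v.pos_mul_int hb (v.int_const c))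

theorem rs_one (v : DVal L) : Rs v 1 1 := by
  left
  rw [map_one, sub_self]

theorem rs_pow {v : DVal L} {a : L} {c : ℂ} (ha : Rs v a c) (n : ℕ) : Rs v (a ^ n) (c ^ n) := by
  induction n with
  | zero => rw [pow_zero, pow_zero]; exact rs_one v
  | succ n ih => rw [pow_succ, pow_succ]; exact rs_mul ih ha

theorem rs_ne {v : DVal L} {a : L} {c : ℂ} (ha : Rs v a c) (h0 : a ≠ 0) (h : v.v a = 0) :
    c ≠ 0 := by
  rintro rfl
  unfold Rs at ha
  rw [map_zero, sub_zero] at ha
  rcases ha with h1 | h1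
  · exact h0 h1
  · omega

theorem rs_inv {v : DVal L} {a : L} {c : ℂ} (ha : Rs v a c) (h0 : a ≠ 0) (h : v.v a = 0) :
    Rs v a⁻¹ c⁻¹ := by
  have hc := rs_ne ha h0 h
  have hc' : algebraMap ℂ L c ≠ 0 := by simpa using hc
  have h1 : a⁻¹ - algebraMap ℂ L c⁻¹ = (a - algebraMap ℂ L c) *
      (-(a⁻¹ * (algebraMap ℂ L c)⁻¹)) := by
    rw [map_inv₀]
    field_simp
    ring
  unfold Rs
  rw [h1]
  refine v.pos_mul_int ha (v.int_neg (v.int_mul (Or.inr ?_) ?_))
  · rw [v.map_inv h0, h, neg_zero]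
  · rw [← map_inv₀]
    exact v.int_const _

theorem trans_of_br {ω : Bracket L} {u w : L} (h : ω.br u w ≠ 0) (P : ℂ[X]) (hP : P ≠ 0) :
    aeval w P ≠ 0 := by
  intro h0
  obtain ⟨a, ha⟩ := H36.const_of_isAlgebraic (K := L) (η := w) ⟨P, hP, h0⟩
  rw [ha, ω.const_right] at h
  exact h rfl

theorem resTr_of_not_const {v : DVal L} {w : L} (ht : ∀ P : ℂ[X], P ≠ 0 → aeval w P ≠ 0)
    (hi : v.Int w) (hc : ¬ ∃ c, Rs v w c) : ResTr v.v w := by
  intro p hp
  refine ⟨ht p hp, ?_⟩
  have h1 := (v.int_aeval hi p).resolve_left (ht p hp)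
  by_contra h2
  exact hc (const_of_pos v ht hp (Or.inr (by omega)))

end Res

section Wt

variable {L : Type} [Field L] [Algebra ℂ L] {ω : Bracket L} {S : Coord L} {c A B : ℂ}

/-- The bracket of `x / y` and `1 / y`. -/
theorem br_ut (hbr : ω.br S.x S.y = algebraMap ℂ L c * ev S.x S.y (wf A B)) :
    ω.br (S.x * S.y⁻¹) S.y⁻¹ = - (algebraMap ℂ L c * (ev S.x S.y (wf A B) * S.y⁻¹ ^ 3)) := by
  have hy := S.y_ne
  rw [ω.mul_left, ω.alt, mul_zero, zero_add]
  rw [ω.skew, ω.inv_left hy, ω.skew, hbr]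
  field_simp

theorem br_uw (hbr : ω.br S.x S.y = algebraMap ℂ L c * ev S.x S.y (wf A B)) (k : ℕ) :
    ω.br (S.x * S.y⁻¹) (ev S.x S.y (wf A B) * S.y⁻¹ ^ 3 * (S.x * S.y⁻¹)⁻¹ ^ k) =
      - (algebraMap ℂ L c * (ev S.x S.y (wf A B) * S.y⁻¹ ^ 3 * (S.x * S.y⁻¹)⁻¹ ^ k) *
        (1 - 2 * algebraMap ℂ L A * (S.x * S.y⁻¹) * S.y⁻¹ - 3 * algebraMap ℂ L B * S.y⁻¹ ^ 2)) := by
  have hx := S.x_ne
  have hy := S.y_ne
  set u := S.x * S.y⁻¹ with hu
  set t := S.y⁻¹ with ht
  have hu0 : u ≠ 0 := mul_ne_zero hx (inv_ne_zero hy)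
  have h1 := br_ut hbr
  rw [← hu, ← ht] at h1
  have h2 : ev S.x S.y (wf A B) * t ^ 3 = t - u ^ 3 - algebraMap ℂ L A * u * t ^ 2 -
      algebraMap ℂ L B * t ^ 3 := by
    rw [ev_wf, hu, ht]
    field_simp
    ring
  have h3 : ω.br u (ev S.x S.y (wf A B) * t ^ 3) = ω.br u t *
      (1 - 2 * algebraMap ℂ L A * u * t - 3 * algebraMap ℂ L B * t ^ 2) := by
    rw [h2]
    have e1 : ∀ a b : L, ω.br u (a - b) = ω.br u a - ω.br u b := by
      intro a b
      rw [sub_eq_add_neg, ω.add_right]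
      have : ω.br u (-b) = - ω.br u b := by
        have h4 := ω.add_right u b (-b)
        rw [add_neg_cancel, ω.zero_right] at h4
        linear_combination -h4
      rw [this]
      ring
    rw [e1, e1, e1]
    have e2 : ω.br u (u ^ 3) = 0 := by
      rw [ω.skew, ω.pow_left, ω.alt]
      ring
    have e3 : ω.br u (algebraMap ℂ L A * u * t ^ 2) = 2 * algebraMap ℂ L A * u * t * ω.br u t := by
      rw [ω.mul_right, ω.mul_right, ω.const_right, ω.alt, ω.skew u (t ^ 2), ω.pow_left,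
        ω.skew t u]
      push_cast
      ring
    have e4 : ω.br u (algebraMap ℂ L B * t ^ 3) = 3 * algebraMap ℂ L B * t ^ 2 * ω.br u t := by
      rw [ω.mul_right, ω.const_right, ω.skew u (t ^ 3), ω.pow_left, ω.skew t u]
      push_cast
      ring
    rw [e2, e3, e4]
    ring
  have h4 : ω.br u (u⁻¹ ^ k) = 0 := by
    rw [ω.skew, ω.pow_left, ω.inv_left hu0, ω.alt]
    ring
  rw [ω.mul_right, h4, h3, h1]
  ring

end Wt

section Main

variable {L : Type} [Field L] [Algebra ℂ L] {e d : ℕ} {A B : ℂ} {S : Coord L} {K : Type}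
  [Field K] [Algebra ℂ K] {g : Fin 3 → LaurentPolynomial K} {i : L →ₐ[ℂ] RatFunc K}

theorem sgn {P : K[X]} (hP : Irreducible P) {v : DVal L}
    (hv : ∀ z, v.Int z ↔ RegAtT P (i z)) {z : L} (hz : z ≠ 0) :
    (0 ≤ v.v z ↔ 0 ≤ ordP P hP (i z)) ∧ (v.v z = 0 ↔ ordP P hP (i z) = 0) := by
  have hi : i z ≠ 0 := by
    rw [Ne, map_eq_zero]
    exact hz
  have h1 : ∀ y : L, y ≠ 0 → (0 ≤ v.v y ↔ 0 ≤ ordP P hP (i y)) := by
    intro y hy
    have hiy : i y ≠ 0 := by
      rw [Ne, map_eq_zero]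
      exact hy
    rw [← regAtT_iff (hP := hP) hiy, ← hv y]
    unfold DVal.Int
    simp [hy]
  refine ⟨h1 z hz, ?_⟩
  have h2 := h1 z hz
  have h3 := h1 z⁻¹ (inv_ne_zero hz)
  rw [v.map_inv hz, map_inv₀, ordP_inv] at h3
  constructor
  · intro h
    have a1 := h2.1 h.ge
    have a2 := h3.1 (by omega)
    omega
  · intro h
    have a1 := h2.2 h.ge
    have a2 := h3.2 (by omega)
    omega

/-- The two cases for a place along the family. -/
theorem TF.cases (h : TF e d A B S K g i) {P : K[X]} (hP : Irreducible P)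
    (hX : ¬ P ∣ Polynomial.X) {v : DVal L} (hv : ∀ z, v.Int z ↔ RegAtT P (i z)) :
    (v.v (ev S.x S.y (H48.wf A B)) = 0 ∧ v.Int S.x ∧ v.Int S.y) ∨
    (v.v (ev S.x S.y (H48.wf A B)) < 0 ∧ d * v.v S.x = 2 * v.v (ev S.x S.y (H48.wf A B)) ∧
      d * v.v S.y = 3 * v.v (ev S.x S.y (H48.wf A B)) ∧
      v.v (S.x ^ d * (ev S.x S.y (H48.wf A B))⁻¹ ^ 2) = 0 ∧
      v.v (S.y ^ d * (ev S.x S.y (H48.wf A B))⁻¹ ^ 3) = 0) := by
  set f := ev S.x S.y (H48.wf A B) with hf
  have hf0 : f ≠ 0 := S.ne (wf_ne A B)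
  have hx := S.x_ne
  have hy := S.y_ne
  have o0 := gam_ord (g 0) hP hX (h.ne 0)
  have o1 := gam_ord (g 1) hP hX (h.ne 1)
  have o2 := gam_ord (g 2) hP hX (h.ne 2)
  have hpow : ∀ (a : RatFunc K) (n : ℕ), a ≠ 0 → ordP P hP (a ^ n) = n * ordP P hP a := by
    intro a n ha
    induction n with
    | zero =>
      have h1 := ordP_C (K := K) (hP := hP) (c := 1) one_ne_zero
      rw [map_one] at h1
      rw [pow_zero, h1]
      simp
    | succ n ih =>
      rw [pow_succ, ordP_mul (pow_ne_zero _ ha) ha, ih]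
      push_cast
      ring
  have of : ordP P hP (i f) = - (d * ordP P hP (gam K (g 0))) := by
    rw [hf, h.wf, ordP_inv, hpow _ _ (h.ne 0)]
  have hdpos : (1 : ℤ) ≤ d := by
    have := h.hd
    exact_mod_cast this
  rcases eq_or_lt_of_le o0 with hz | hz
  · left
    refine ⟨(sgn hP hv hf0).2.2 (by rw [of, ← hz]; ring), ?_, ?_⟩
    · right
      rw [(sgn hP hv hx).1, h.ix, div_eq_mul_inv, ordP_mul (h.ne 1) (inv_ne_zero
        (pow_ne_zero _ (h.ne 0))), ordP_inv, hpow _ _ (h.ne 0), ← hz]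
      omega
    · right
      rw [(sgn hP hv hy).1, h.iy, div_eq_mul_inv, ordP_mul (h.ne 2) (inv_ne_zero
        (pow_ne_zero _ (h.ne 0))), ordP_inv, hpow _ _ (h.ne 0), ← hz]
      omega
  · right
    have hxy : ordP P hP (gam K (g 1)) = 0 ∧ ordP P hP (gam K (g 2)) = 0 := by
      by_contra hcon
      have h1 : 0 < ordP P hP (gam K (g 1) * gam K (g 2)) := by
        rw [ordP_mul (h.ne 1) (h.ne 2)]
        by_contra h2
        exact hcon ⟨by omega, by omega⟩
      obtain ⟨α, β, hαβ⟩ := h.bez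
      have h2 := congrArg (gam K) hαβ
      rw [map_add, map_mul, map_mul, map_mul, map_one] at h2
      have hone : ordP P hP (1 : RatFunc K) = 0 := by
        have h1 := ordP_C (K := K) (hP := hP) (c := 1) one_ne_zero
        rwa [map_one] at h1
      have hp : ∀ (q : LaurentPolynomial K) (r : RatFunc K), r ≠ 0 → 0 < ordP P hP r →
          gam K q * r = 0 ∨ 0 < ordP P hP (gam K q * r) := by
        intro q r hr hr1
        by_cases hq : gam K q = 0
        · left
          rw [hq, zero_mul]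
        · right
          rw [ordP_mul hq hr]
          have := gam_ord q hP hX hq
          omega
      have p1 := hp α _ (h.ne 0) hz
      have p2 := hp β _ (mul_ne_zero (h.ne 1) (h.ne 2)) h1
      set a := gam K α * gam K (g 0) with ha
      set b := gam K β * (gam K (g 1) * gam K (g 2)) with hb
      rcases p1 with p1 | p1
      · rw [p1, zero_add] at h2
        rw [h2] at p2
        rcases p2 with p2 | p2
        · exact one_ne_zero p2
        · omega
      · rcases p2 with p2 | p2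
        · rw [p2, add_zero] at h2
          rw [h2] at p1
          omega
        · have ha0 : a ≠ 0 := by
            intro h0
            rw [h0, zero_add] at h2
            rw [h2] at p2
            omega
          have hb0 : b ≠ 0 := by
            intro h0
            rw [h0, add_zero] at h2
            rw [h2] at p1
            omega
          have h3 := ordP_add (P := P) (hP := hP) ha0 hb0 (by rw [h2]; exact one_ne_zero)
          rw [h2, hone] at h3
          rcases min_le_iff.1 h3 with h4 | h4 <;> omega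
    have vx : v.v (S.x ^ d * f⁻¹ ^ 2) = 0 := by
      rw [(sgn hP hv (mul_ne_zero (pow_ne_zero _ hx) (pow_ne_zero _ (inv_ne_zero hf0)))).2]
      rw [hf, h.xd_mem, hpow _ _ (h.ne 1), hxy.1, mul_zero]
    have vy : v.v (S.y ^ d * f⁻¹ ^ 3) = 0 := by
      rw [(sgn hP hv (mul_ne_zero (pow_ne_zero _ hy) (pow_ne_zero _ (inv_ne_zero hf0)))).2]
      rw [hf, h.yd_mem, hpow _ _ (h.ne 2), hxy.2, mul_zero]
    have vf : v.v f < 0 := by
      by_contra hcon
      have h1 := (sgn hP hv hf0).1.1 (by omega)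
      rw [of] at h1
      nlinarith
    refine ⟨vf, ?_, ?_, vx, vy⟩
    · rw [v.map_mul _ _ (pow_ne_zero _ hx) (pow_ne_zero _ (inv_ne_zero hf0)), v.map_pow hx,
        v.map_pow (inv_ne_zero hf0), v.map_inv hf0] at vx
      push_cast at vx
      linarith
    · rw [v.map_mul _ _ (pow_ne_zero _ hy) (pow_ne_zero _ (inv_ne_zero hf0)), v.map_pow hy,
        v.map_pow (inv_ne_zero hf0), v.map_inv hf0] at vy
      push_cast at vy
      linarith

end Main

end H48

end

end LCY
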