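import Pool.Agent.Helper27.LCY.Transp

/-!
Transport between the statement definitions (namespace LCS) and the working definitions
(namespace LCY): forms and uniruledness.
-/

open MvPolynomial

namespace LCS

noncomputable section

variable {N : ℕ}

/-- The inclusion of the 2-forms in the algebra of forms. -/
def Var.inc (Y : Var N) : Y.old.Forms →+ Y.Forms :=
  ((⋀[Y.old.L]^2 (Ω[Y.old.L⁄ℂ])).subtype.toAddMonoidHom :
    ↥(⋀[Y.old.L]^2 (Ω[Y.old.L⁄ℂ])) →+ ExteriorAlgebra Y.old.L (Ω[Y.old.L⁄ℂ]))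

theorem Var.inc_injective (Y : Var N) : Function.Injective Y.inc :=
  fun _ _ h => Subtype.ext h

theorem wedge_eq (L : Type) [Field L] [Algebra ℂ L] (c a b : L) :
    ((c • exteriorPower.ιMulti L 2 ![KaehlerDifferential.D ℂ L a, KaehlerDifferential.D ℂ L b] :
      ⋀[L]^2 (Ω[L⁄ℂ])) : ExteriorAlgebra L (Ω[L⁄ℂ])) =
      c • (ExteriorAlgebra.ι L (KaehlerDifferential.D ℂ L a) *
        ExteriorAlgebra.ι L (KaehlerDifferential.D ℂ L b)) := by
  rw [Submodule.coe_smul, exteriorPower.ιMulti_apply_coe, ExteriorAlgebra.ιMulti_apply]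
  simp

theorem Var.inc_form (Y : Var N) (c a b : Y.L) :
    Y.inc (Y.old.form c a b) = c • Y.wedge a b :=
  wedge_eq Y.old.L c a b

theorem Var.inc_smul (Y : Var N) (c : Y.L) (m : Y.old.Forms) :
    Y.inc ((show Y.old.L from c) • m) = c • Y.inc m := rfl

theorem Var.inc_regForms (Y C : Var N) :
    (Y.regForms C : Set Y.Forms) = Y.inc '' (Y.old.regForms C.old : Set Y.old.Forms) := by
  have h1 : Y.regForms C = (Y.old.regForms C.old).map Y.inc := by
    unfold Var.regForms LCY.Var.regForms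
    rw [AddMonoidHom.map_closure]
    congr 1
    ext m
    constructor
    · rintro ⟨a, ha, b, hb, c, hc, rfl⟩
      exact ⟨Y.old.form c a b, ⟨a, ha, b, hb, c, hc, rfl⟩, Y.inc_form c a b⟩
    · rintro ⟨_, ⟨a, ha, b, hb, c, hc, rfl⟩, rfl⟩
      exact ⟨a, ha, b, hb, c, hc, Y.inc_form c a b⟩
  rw [h1]
  rfl

theorem Var.inc_mults (Y C : Var N) (w : Y.old.Forms) :
    Y.mults C (Y.inc w) = Y.inc '' (Y.old.mults C.old w) := by
  ext m
  constructor
  · rintro ⟨c, hc, rfl⟩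
    exact ⟨(show Y.old.L from c) • w, ⟨c, hc, rfl⟩, rfl⟩
  · rintro ⟨_, ⟨c, hc, rfl⟩, rfl⟩
    exact ⟨c, hc, rfl⟩

theorem Var.inc_maxMults (Y C : Var N) (w : Y.old.Forms) :
    Y.maxMults C (Y.inc w) = Y.inc '' (Y.old.maxMults C.old w) := by
  ext m
  constructor
  · rintro ⟨c, hc, rfl⟩
    exact ⟨(show Y.old.L from c.1) • w, ⟨c, hc, rfl⟩, rfl⟩
  · rintro ⟨_, ⟨c, hc, rfl⟩, rfl⟩
    exact ⟨c, hc, rfl⟩

theorem wedge_mem (L : Type) [Field L] [Algebra ℂ L] (a b : L) :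
    (ExteriorAlgebra.ι L (KaehlerDifferential.D ℂ L a) *
        ExteriorAlgebra.ι L (KaehlerDifferential.D ℂ L b) : ExteriorAlgebra L (Ω[L⁄ℂ])) ∈
      ⋀[L]^2 (Ω[L⁄ℂ]) := by
  have h := (exteriorPower.ιMulti L 2
    ![KaehlerDifferential.D ℂ L a, KaehlerDifferential.D ℂ L b]).2
  have h1 := wedge_eq L 1 a b
  rw [one_smul, one_smul] at h1
  rw [← h1]
  exact h

theorem Var.exists_inc (Y : Var N) {w : Y.Forms} (h : w ∈ Y.twoForms) : ∃ v, Y.inc v = w := by
  have h1 : Y.twoForms ≤ (show Submodule Y.L Y.Forms from ⋀[Y.old.L]^2 (Ω[Y.old.L⁄ℂ])) := by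
    unfold Var.twoForms
    rw [Submodule.span_le]
    rintro m ⟨a, b, rfl⟩
    exact wedge_mem Y.old.L a b
  exact ⟨⟨w, h1 h⟩, rfl⟩

/-- The canonical form. -/
theorem canonical_old (Y : Var N) (D : Set (Var N))
    (hc : ∀ C : Var N, Y.IsCurveOn C ↔ Y.old.IsCurveOn C.old)
    (h : ∃ w ∈ Y.twoForms, w ≠ 0 ∧
      (∀ C, Y.IsCurveOn C → C ∉ D → (Y.regForms C : Set Y.Forms) = Y.mults C w) ∧
      (∀ C ∈ D, (Y.regForms C : Set Y.Forms) = Y.maxMults C w)) :
    ∃ w : Y.old.Forms, w ≠ 0 ∧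
      (∀ C, Y.old.IsCurveOn C → C ∉ Var.old '' D →
        (Y.old.regForms C : Set Y.old.Forms) = Y.old.mults C w) ∧
      (∀ C ∈ Var.old '' D, (Y.old.regForms C : Set Y.old.Forms) = Y.old.maxMults C w) := by
  obtain ⟨w, hw, hw0, h1, h2⟩ := h
  obtain ⟨v, rfl⟩ := Y.exists_inc hw
  refine ⟨v, fun h0 => hw0 (by rw [h0, map_zero]), ?_, ?_⟩
  · intro C hC hCD
    have h3 := h1 ⟨C.I, C.prime, C.homogeneous, C.relevant⟩ ((hc _).2 hC)
      (fun h4 => hCD ⟨_, h4, rfl⟩)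
    rw [Y.inc_regForms, Y.inc_mults] at h3
    exact Y.inc_injective.image_injective h3
  · rintro _ ⟨C, hC, rfl⟩
    have h3 := h2 C hC
    rw [Y.inc_regForms, Y.inc_maxMults] at h3
    exact Y.inc_injective.image_injective h3

theorem adjoin_old (L : Type) [Field L] [Algebra ℂ L] (E : IntermediateField ℂ L) (t : L)
    (h : IntermediateField.adjoin ℂ (insert t (E : Set L)) = ⊤) :
    IntermediateField.adjoin E {t} = ⊤ := by
  rw [eq_top_iff]
  intro z _
  have hz : z ∈ IntermediateField.adjoin ℂ (insert t (E : Set L)) := by rw [h]; trivial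
  have h1 : IntermediateField.adjoin ℂ (insert t (E : Set L)) ≤
      (IntermediateField.adjoin E {t}).restrictScalars ℂ := by
    rw [IntermediateField.adjoin_le_iff]
    intro a ha
    rcases ha with rfl | ha
    · exact (IntermediateField.mem_restrictScalars (K := ℂ)).2
        (IntermediateField.mem_adjoin_simple_self E a)
    · exact (IntermediateField.adjoin E {t}).algebraMap_mem ⟨a, ha⟩
  exact h1 hz

theorem uniruled_old (Y : Var N) (h : Y.Uniruled) : Y.old.Uniruled := by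
  obtain ⟨E, t, h1, h2⟩ := h
  exact ⟨E, t, h1, adjoin_old Y.L E t h2⟩

end

end LCS
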